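import Pool.Agent.helper61.DP.RHM
import Pool.Agent.helper61.DP.RSX
import Pool.Agent.helper64.TP.SpecC
import Pool.Agent.helper64.TP.API

/-!
# Project sp, part RSW: Russo, Seymour, Welsh for the brick wall (triangular lattice)

Only exact symmetries are used: even translations, the reflection `rf h` in a row, the colour
flip and, for the rhombus, the exchange `ex` of the two lattice directions.

* `TQD`, `TQE`, `TQ0`: the rhombus is self-dual and self-similar under the exchange of its sides, so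
  black crossings in both directions have probability at least one half.
* `TR2`, `TR3`, `TR4`, `TGD`, `TGP`: doubling of the height, `pv (w, h) ^ 2 / 4 ≤ pv (w, 2 h)`: the
  region to the right of the leftmost vertical crossing and of its mirror image is mapped to
  itself by the reflection, which exchanges the two possible (dual) crossings.
* `TTL`, `TGL`, `TLG`: tall crossings, gluing, long crossings.
-/

namespace TP

open DP

/-! ## Symmetries, FKG -/

/-- TSY. Symmetries: bijections compatible with the left sites of the bricks, and the same with a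
colour flip. -/
def TSY_stmt : Prop :=
  (∀ (φ : V ≃ V) (p : (V → Bool) → Prop) (A : Set V), Loc (Ev p) A → (∀ v, br (φ v) = φ (br v)) →
    Pr (Ev fun c => p fun v => c (φ v)) = Pr (Ev p)) ∧
  (∀ (φ : V ≃ V) (p : (V → Bool) → Prop) (A : Set V), Loc (Ev p) A → (∀ v, br (φ v) = φ (br v)) →
    Pr (Ev fun c => p fun v => !(c (φ v))) = Pr (Ev p))

/-- TSX. Even translations and the colour flip. -/
def TSX_stmt : Prop :=
  (∀ (k : Bool) (a b d e i j : ℤ), (i + j) % 2 = 0 →
    ph k (a + i) (b + i) (d + j) (e + j) = ph k a b d e ∧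
    pv k (a + i) (b + i) (d + j) (e + j) = pv k a b d e) ∧
  (∀ (k : Bool) (a b d e : ℤ), ph (!k) a b d e = ph k a b d e ∧ pv (!k) a b d e = pv k a b d e)

/-- TFK. FKG for one configuration. -/
def TFK_stmt : Prop :=
  ∀ (k : Bool) (F G : Set (V → Bool)) (A B : Set V), Loc F A → Loc G B → Mon k F → Mon k G →
    Pr F * Pr G ≤ Pr (F ∩ G)

/-! ## The rhombus -/

/-- The rhombus of `(n + 1) ^ 2` bricks. -/
def rh (n : ℤ) : Set V := {v | 0 ≤ v.2 ∧ v.2 ≤ n ∧ v.2 ≤ v.1 ∧ v.1 ≤ 2 * n + 1 + v.2}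

/-- Crossing of the rhombus from left to right. -/
def HR (c : V → Bool) (k : Bool) (n : ℤ) : Prop :=
  ∃ u v : V, u.1 ≤ u.2 + 1 ∧ 2 * n + v.2 ≤ v.1 ∧ Conn c k (rh n) u v

/-- Crossing of the rhombus from bottom to top. -/
def VR (c : V → Bool) (k : Bool) (n : ℤ) : Prop :=
  ∃ u v : V, u.2 = 0 ∧ v.2 = n ∧ Conn c k (rh n) u v

/-- Exchange of the two directions of the rhombus: the brick `{(2 i + j, j), (2 i + j + 1, j)}` goes to
the brick of `(j, i)`. -/
def ex (v : V) : V := (2 * v.2 + (v.1 - v.2) / 2 + (v.1 - v.2) % 2, (v.1 - v.2) / 2)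

/-- TQD. Duality in the rhombus (Hex in the rectangle `[0, 3 n + 1] × [0, n]`, black outside). -/
def TQD_stmt : Prop :=
  ∀ (c : V → Bool) (n : ℤ), 0 ≤ n → HR c true n ∨ VR c false n

/-- TQE. The exchange on crossings (adjacent bricks go to adjacent bricks). -/
def TQE_stmt : Prop :=
  ∀ (b : V → Bool) (k : Bool) (n : ℤ), (VR (fun v => col b (ex v)) k n ↔ HR (col b) k n)

/-- TQ0. Base. -/
def TQ0_stmt : Prop :=
  ∀ n : ℤ, 1 ≤ n → 1 / 2 ≤ ph true (n + 1) (2 * n) 0 n ∧ 1 / 2 ≤ pv true 0 (3 * n + 1) 0 n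

/-! ## Doubling -/

/-- The upper right part of the boundary of `[0, w] × [0, 2 h]`. -/
def UR (w h : ℤ) (y : V) : Prop := y.2 = 2 * h ∨ (y.1 = w ∧ h ≤ y.2)

/-- Connection from the bottom to the upper right part. -/
def EU (c : V → Bool) (w h : ℤ) : Prop :=
  ∃ u y : V, u.2 = 0 ∧ UR w h y ∧ Conn c true (rect 0 w 0 (2 * h)) u y

/-- A black path from a site next to `X` to the upper right part avoiding `X` and its mirror image (or `X`
contains a site of the upper right part). -/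
def FB (c : V → Bool) (X : Set V) (w h : ℤ) : Prop :=
  ∃ v ∈ X, UR w h v ∨ ∃ z y : V, Adj v z ∧ UR w h y ∧
    Conn c true {z | z ∈ rect 0 w 0 (2 * h) ∧ z ∉ X ∧ rf h z ∉ X} z y

/-- TR2. Connection of the crossing to the upper right part. -/
def TR2_stmt : Prop :=
  ∀ (c : V → Bool) (w h : ℤ), 0 ≤ w → 1 ≤ h → vcross c true 0 w 0 h →
    FB c (RV c w h) w h → EU c w h

/-- TR3. Duality to the right of `X` and of its mirror image. -/
def TR3_stmt : Prop :=
  ∀ (c : V → Bool) (X : Set V) (w h : ℤ), 0 ≤ w → 1 ≤ h → (w + h) % 2 = 0 →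
    X ⊆ rect 0 w 0 h → (∀ y : ℤ, 0 ≤ y → y ≤ h → (0, y) ∈ X) →
      FB c X w h ∨ FB (fun v => !(c (rf h v))) X w h

/-- TR4. The probabilistic step. -/
def TR4_stmt : Prop :=
  ∀ w h : ℤ, 0 ≤ w → 1 ≤ h → (w + h) % 2 = 0 →
    pv true 0 w 0 h / 2 ≤ Pr (Ev fun c => EU c w h)

/-- TGD. Gluing of two mirror images. -/
def TGD_stmt : Prop :=
  ∀ (c : V → Bool) (w h : ℤ), 0 ≤ w → 0 ≤ h → EU c w h → EU (fun v => c (rf h v)) w h →
    vcross c true 0 w 0 (2 * h)

/-- TGP. Doubling of the height. -/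
def TGP_stmt : Prop :=
  ∀ w h : ℤ, 0 ≤ w → 1 ≤ h → (w + h) % 2 = 0 → (pv true 0 w 0 h) ^ 2 / 4 ≤ pv true 0 w 0 (2 * h)

/-- TTL. Tall rectangles. -/
def TTL_stmt : Prop :=
  ∀ j : ℕ, ∃ c : ℝ, 0 < c ∧ ∀ m : ℤ, 1 ≤ m → c ≤ pv true 0 (6 * m + 2) 0 (2 ^ j * (2 * m))

/-! ## Gluing along a strip -/

/-- TGL. Two horizontal crossings and a vertical crossing of the intersection. -/
def TGL_stmt : Prop :=
  ∀ (c : V → Bool) (k : Bool) (a b a' b' d e : ℤ), a ≤ a' → a' ≤ b → b ≤ b' →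
    hcross c k a b d e → hcross c k a' b' d e → vcross c k a' b d e → hcross c k a b' d e

/-- TLG. Long rectangles. -/
def TLG_stmt : Prop :=
  ∀ j : ℕ, ∃ c : ℝ, 0 < c ∧ ∀ m : ℤ, 1 ≤ m → c ≤ ph true 1 (16 * m * (j + 2)) 0 (32 * m)

end TP
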