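import Pool.Agent.helper61.TP.SpecR
import Pool.Agent.helper14.DP.RR3

/-!
# Project sp, module TGD: gluing of two mirror images
-/

namespace TP

open DP

theorem TGD_rfConn {c : V → Bool} {w h : ℤ} {u y : V}
    (hc : Conn (fun v => c (rf h v)) true (rect 0 w 0 (2 * h)) u y) :
    Conn c true (rect 0 w 0 (2 * h)) (rf h u) (rf h y) := by
  have key : ∀ z ∈ {z | z ∈ rect 0 w 0 (2 * h) ∧ c (rf h z) = true},
      rf h z ∈ {z | z ∈ rect 0 w 0 (2 * h) ∧ c z = true} := by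
    rintro z ⟨⟨g1, g2, g3, g4⟩, hz⟩
    refine ⟨⟨g1, g2, ?_, ?_⟩, hz⟩
    · show 0 ≤ 2 * h - z.2
      omega
    · show 2 * h - z.2 ≤ 2 * h
      omega
  exact DP.Con.induct' hc (fun z => DP.Con {z | z ∈ rect 0 w 0 (2 * h) ∧ c z = true} (rf h u) (rf h z))
    (DP.Con.refl (key u (DP.Con.mem_left hc)))
    fun p q _ hq hpq hP => hP.step (RR3_rf_adj h hpq) (key q hq)

theorem TGD_core (hRC : RC_stmt) {c : V → Bool} {w h : ℤ} (hw : 0 ≤ w) (hh : 0 ≤ h) {u y p q : V}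
    (hu : u.2 = 0) (hy : y.1 = w) (hy' : h ≤ y.2) (hp : p.2 = 2 * h) (hq : q.1 = w) (hq' : q.2 ≤ h)
    (hA : Conn c true (rect 0 w 0 (2 * h)) u y) (hB : Conn c true (rect 0 w 0 (2 * h)) p q) :
    vcross c true 0 w 0 (2 * h) := by
  rcases lt_or_ge q.2 y.2 with hlt | hge
  · have hyR := (DP.Con.mem_right hA).1
    have hpR := (DP.Con.mem_left hB).1
    have hqR := (DP.Con.mem_right hB).1
    have hyR' : 0 ≤ y.1 ∧ y.1 ≤ w ∧ 0 ≤ y.2 ∧ y.2 ≤ 2 * h := hyR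
    have hpR' : 0 ≤ p.1 ∧ p.1 ≤ w ∧ 0 ≤ p.2 ∧ p.2 ≤ 2 * h := hpR
    have hqR' : 0 ≤ q.1 ∧ q.1 ≤ w ∧ 0 ≤ q.2 ∧ q.2 ≤ 2 * h := hqR
    set A : Set V := {z | Conn c true (rect 0 w 0 (2 * h)) u z} with hAdef
    set B : Set V := {z | Conn c true (rect 0 w 0 (2 * h)) p z} with hBdef
    have hAR : ∀ z ∈ A, 0 ≤ z.1 ∧ z.1 ≤ w ∧ 0 ≤ z.2 ∧ z.2 ≤ 2 * h := fun z hz =>
      (DP.Con.mem_right hz).1
    have hBR : ∀ z ∈ B, 0 ≤ z.1 ∧ z.1 ≤ w ∧ 0 ≤ z.2 ∧ z.2 ≤ 2 * h := fun z hz =>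
      (DP.Con.mem_right hz).1
    have hAc : DP.Con A u y := DP.Con.cluster hA
    have hBc : DP.Con B p q := DP.Con.cluster hB
    set W : Set V := B ∪ {z | z.2 = 2 * h + 1 ∧ 0 ≤ z.1 ∧ z.1 ≤ p.1} ∪ {z | z.1 = w + 1 ∧ z.2 = q.2}
      with hW
    set W' : Set V := A ∪ {z | z.1 = w + 1 ∧ y.2 ≤ z.2 ∧ z.2 ≤ 2 * h + 1} with hW'
    have c1 : DP.Con W (0, 2 * h + 1) (w + 1, q.2) := by
      have d1 : DP.Con W (0, 2 * h + 1) (p.1, 2 * h + 1) :=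
        con_horiz _ _ _ hpR'.1 fun t h1 h2 => Or.inl (Or.inr ⟨rfl, h1, h2⟩)
      have d2 : DP.Con W (0, 2 * h + 1) p := by
        refine d1.step ?_ (Or.inl (Or.inl (DP.Con.mem_left hBc)))
        rw [adj_iff]
        refine ⟨⟨?_, ?_, ?_, ?_⟩, ?_, ?_⟩ <;> dsimp only <;> omega
      have d3 : DP.Con W (0, 2 * h + 1) q :=
        d2.trans (hBc.mono fun z hz => Or.inl (Or.inl hz))
      refine d3.step ?_ (Or.inr ⟨rfl, rfl⟩)
      rw [adj_iff]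
      refine ⟨⟨?_, ?_, ?_, ?_⟩, ?_, ?_⟩ <;> dsimp only <;> omega
    have c2 : DP.Con W' u (w + 1, 2 * h + 1) := by
      have d1 : DP.Con W' u y := hAc.mono fun z hz => Or.inl hz
      have d2 : DP.Con W' u (w + 1, y.2) := by
        refine d1.step ?_ (Or.inr ⟨rfl, le_rfl, ?_⟩)
        · rw [adj_iff]
          refine ⟨⟨?_, ?_, ?_, ?_⟩, ?_, ?_⟩ <;> dsimp only <;> omega
        · dsimp only
          omega
      refine d2.trans (con_vert _ _ _ (by omega) fun t h1 h2 => Or.inr ⟨rfl, h1, h2⟩)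
    obtain ⟨z, hz, hz'⟩ := hRC 0 (w + 1) 0 (2 * h + 1) W W' (by
        rintro z ((hz | hz) | hz)
        · have := hBR z hz
          show 0 ≤ z.1 ∧ z.1 ≤ w + 1 ∧ 0 ≤ z.2 ∧ z.2 ≤ 2 * h + 1
          omega
        · obtain ⟨h1, h2, h3⟩ := hz
          show 0 ≤ z.1 ∧ z.1 ≤ w + 1 ∧ 0 ≤ z.2 ∧ z.2 ≤ 2 * h + 1
          omega
        · obtain ⟨h1, h2⟩ := hz
          show 0 ≤ z.1 ∧ z.1 ≤ w + 1 ∧ 0 ≤ z.2 ∧ z.2 ≤ 2 * h + 1
          omega) (by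
        rintro z (hz | hz)
        · have := hAR z hz
          show 0 ≤ z.1 ∧ z.1 ≤ w + 1 ∧ 0 ≤ z.2 ∧ z.2 ≤ 2 * h + 1
          omega
        · obtain ⟨h1, h2, h3⟩ := hz
          show 0 ≤ z.1 ∧ z.1 ≤ w + 1 ∧ 0 ≤ z.2 ∧ z.2 ≤ 2 * h + 1
          omega) (0, 2 * h + 1) (w + 1, q.2) u (w + 1, 2 * h + 1) rfl rfl hu rfl c1 c2
    have hzAB : z ∈ A ∧ z ∈ B := by
      rcases hz' with hz' | ⟨k1, k2, k3⟩
      · have b1 := hAR z hz'
        rcases hz with (hz | ⟨h1, h2, h3⟩) | ⟨h1, h2⟩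
        · exact ⟨hz', hz⟩
        · omega
        · omega
      · exfalso
        rcases hz with (hz | ⟨h1, h2, h3⟩) | ⟨h1, h2⟩
        · have b1 := hBR z hz
          omega
        · omega
        · omega
    exact ⟨u, p, hu, hp, DP.Con.trans hzAB.1 (DP.Con.symm hzAB.2)⟩
  · have e : q = y := by
      ext
      · rw [hq, hy]
      · omega
    rw [e] at hB
    exact ⟨u, p, hu, hp, hA.trans (DP.Con.symm hB)⟩

theorem TGD (hRC : RC_stmt) : TGD_stmt := by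
  rintro c w h hw hh ⟨u, y, hu, hy, hA⟩ ⟨u', y', hu', hy', hB⟩
  have hB' := TGD_rfConn hB
  rcases hy with hy | ⟨hy1, hy2⟩
  · exact ⟨u, y, hu, hy, hA⟩
  rcases hy' with hy' | ⟨hy1', hy2'⟩
  · refine ⟨rf h y', rf h u', ?_, ?_, DP.Con.symm hB'⟩
    · show 2 * h - y'.2 = 0
      omega
    · show 2 * h - u'.2 = 2 * h
      omega
  · refine TGD_core hRC hw hh hu hy1 hy2 (p := rf h u') (q := rf h y') ?_ hy1' ?_ hA hB'
    · show 2 * h - u'.2 = 2 * h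
      omega
    · show 2 * h - y'.2 ≤ h
      omega

end TP
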