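import Pool.Agent.helper61.TP.TR4

/-!
# Project sp, modules TGP, TGL: doubling of the height, gluing along a strip
-/

namespace TP

open DP MeasureTheory

theorem TGP_loc (w h : ℤ) : Loc (Ev fun c => EU c w h) (rect 0 w 0 (2 * h)) := by
  refine Loc.ev (Sym_rect_finite _ _ _ _) fun c c' hc => ?_
  unfold EU
  refine exists_congr fun u => exists_congr fun y => ?_
  rw [Conn.congr (c := c) (c' := c') (k := true) (R := rect 0 w 0 (2 * h)) hc]

theorem TGP_mon {c c' : V → Bool} {w h : ℤ} (hc : ∀ v, c v = true → c' v = true) (hE : EU c w h) :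
    EU c' w h := by
  obtain ⟨u, y, h1, h2, h3⟩ := hE
  exact ⟨u, y, h1, h2, h3.colour_mono fun v _ => hc v⟩

theorem TGP_loc' (w h : ℤ) :
    Loc (Ev fun c => EU (fun v => c (rf h v)) w h) Set.univ := by
  refine (Loc.ev (A := (TR4_rfE h) '' (rect 0 w 0 (2 * h)))
    ((Sym_rect_finite _ _ _ _).image _) fun c c' hc => ?_).mono (Set.subset_univ _)
  have key : ∀ v ∈ rect 0 w 0 (2 * h), c (rf h v) = c' (rf h v) := fun v hv =>
    hc (TR4_rfE h v) (Set.mem_image_of_mem _ hv)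
  unfold EU
  refine exists_congr fun u => exists_congr fun y => ?_
  rw [Conn.congr (c := fun v => c (rf h v)) (c' := fun v => c' (rf h v)) (k := true)
    (R := rect 0 w 0 (2 * h)) key]

theorem TGP (hGD : TGD_stmt) (h4 : TR4_stmt) : TGP_stmt := by
  intro w h hw hh hpar
  have : IsProbabilityMeasure P1 := by unfold P1; infer_instance
  set E1 : Set (V → Bool) := Ev fun c => EU c w h with hE1
  set E2 : Set (V → Bool) := Ev fun c => EU (fun v => c (rf h v)) w h with hE2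
  have l1 : Loc E1 Set.univ := (TGP_loc w h).mono (Set.subset_univ _)
  have l2 : Loc E2 Set.univ := TGP_loc' w h
  have m1 : Mon true E1 := Mon.ev fun c c' hc => TGP_mon hc
  have m2 : Mon true E2 := Mon.ev fun c c' hc => TGP_mon fun v => hc _
  have e2 : Pr E2 = Pr E1 :=
    TSY.1 (TR4_rfE h) (fun c => EU c w h) Set.univ l1 (TR4_rfE_br h)
  have f1 : Pr E1 * Pr E2 ≤ Pr (E1 ∩ E2) := TFK true E1 E2 _ _ l1 l2 m1 m2
  have hsub : E1 ∩ E2 ⊆ Ev fun c => vcross c true 0 w 0 (2 * h) := by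
    rintro b ⟨h1, h2⟩
    exact hGD (col b) w h hw (by omega) h1 h2
  have f2 : Pr (E1 ∩ E2) ≤ pv true 0 w 0 (2 * h) := measureReal_mono hsub (measure_ne_top _ _)
  have f3 := h4 w h hw hh hpar
  have f4 : 0 ≤ pv true 0 w 0 h := measureReal_nonneg
  calc (pv true 0 w 0 h) ^ 2 / 4 = (pv true 0 w 0 h / 2) * (pv true 0 w 0 h / 2) := by ring
    _ ≤ Pr E1 * Pr E1 := mul_le_mul f3 f3 (by linarith) measureReal_nonneg
    _ = Pr E1 * Pr E2 := by rw [e2]
    _ ≤ _ := f1.trans f2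

theorem TGL (hRC : RC_stmt) : TGL_stmt := by
  rintro c k a b a' b' d e haa hab hbb ⟨u, v, hu, hv, h1⟩ ⟨u', v', hu', hv', h2⟩ ⟨p, q, hp, hq, h3⟩
  set A : Set V := {z | Conn c k (rect a b d e) u z} with hA
  set B : Set V := {z | Conn c k (rect a' b' d e) u' z} with hB
  set S : Set V := {z | Conn c k (rect a' b d e) p z} with hS
  have hAr : ∀ z ∈ A, (a ≤ z.1 ∧ z.1 ≤ b ∧ d ≤ z.2 ∧ z.2 ≤ e) ∧ c z = k := fun z hz =>
    ⟨(DP.Con.mem_right hz).1, (DP.Con.mem_right hz).2⟩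
  have hBr : ∀ z ∈ B, (a' ≤ z.1 ∧ z.1 ≤ b' ∧ d ≤ z.2 ∧ z.2 ≤ e) ∧ c z = k := fun z hz =>
    ⟨(DP.Con.mem_right hz).1, (DP.Con.mem_right hz).2⟩
  have hSr : ∀ z ∈ S, (a' ≤ z.1 ∧ z.1 ≤ b ∧ d ≤ z.2 ∧ z.2 ≤ e) ∧ c z = k := fun z hz =>
    ⟨(DP.Con.mem_right hz).1, (DP.Con.mem_right hz).2⟩
  have hAc : DP.Con A u v := DP.Con.cluster h1
  have hBc : DP.Con B u' v' := DP.Con.cluster h2
  have hSc : DP.Con S p q := DP.Con.cluster h3
  obtain ⟨x, hx, hx'⟩ := hRC a b d e A S (fun z hz => (hAr z hz).1) (fun z hz => by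
    obtain ⟨g, -⟩ := hSr z hz
    show a ≤ z.1 ∧ z.1 ≤ b ∧ d ≤ z.2 ∧ z.2 ≤ e
    omega) u v p q hu hv hp hq hAc hSc
  obtain ⟨y, hy, hy'⟩ := hRC a' b' d e B S (fun z hz => (hBr z hz).1) (fun z hz => by
    obtain ⟨g, -⟩ := hSr z hz
    show a' ≤ z.1 ∧ z.1 ≤ b' ∧ d ≤ z.2 ∧ z.2 ≤ e
    omega) u' v' p q hu' hv' hp hq hBc hSc
  have mA : ∀ {s t : V}, Conn c k (rect a b d e) s t → Conn c k (rect a b' d e) s t := by
    intro s t hst
    refine DP.Con.mono ?_ hst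
    rintro z ⟨⟨g1, g2, g3, g4⟩, hz⟩
    exact ⟨⟨g1, g2.trans hbb, g3, g4⟩, hz⟩
  have mB : ∀ {s t : V}, Conn c k (rect a' b' d e) s t → Conn c k (rect a b' d e) s t := by
    intro s t hst
    refine DP.Con.mono ?_ hst
    rintro z ⟨⟨g1, g2, g3, g4⟩, hz⟩
    exact ⟨⟨haa.trans g1, g2, g3, g4⟩, hz⟩
  have mS : ∀ {s t : V}, Conn c k (rect a' b d e) s t → Conn c k (rect a b' d e) s t := by
    intro s t hst
    refine DP.Con.mono ?_ hst
    rintro z ⟨⟨g1, g2, g3, g4⟩, hz⟩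
    exact ⟨⟨haa.trans g1, g2.trans hbb, g3, g4⟩, hz⟩
  refine ⟨u, v', hu, hv', ?_⟩
  have e1 : Conn c k (rect a b' d e) u x := mA hx
  have e2 : Conn c k (rect a b' d e) p x := mS hx'
  have e3 : Conn c k (rect a b' d e) p y := mS hy'
  have e4 : Conn c k (rect a b' d e) u' y := mB hy
  have e5 : Conn c k (rect a b' d e) u' v' := mB h2
  exact (((e1.trans (DP.Con.symm e2)).trans e3).trans (DP.Con.symm e4)).trans e5

end TP
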