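import Pool.Agent.helper61.TP.SpecR
import Pool.Agent.helper14.DP.RR3

/-!
# Project sp, module TR2: connection of the crossing to the upper right part
-/

namespace TP

open DP

/-- Folding the upper half onto the lower half. -/
def TR2_fo (h : ℤ) (v : V) : V := if v.2 ≤ h then v else rf h v

theorem TR2_fo_of_le {h : ℤ} {v : V} (hv : v.2 ≤ h) : TR2_fo h v = v := if_pos hv

theorem TR2_fo_of_gt {h : ℤ} {v : V} (hv : ¬ v.2 ≤ h) : TR2_fo h v = (v.1, 2 * h - v.2) := if_neg hv

theorem TR2_fo_fst (h : ℤ) (v : V) : (TR2_fo h v).1 = v.1 := by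
  unfold TR2_fo rf
  split_ifs <;> rfl

theorem TR2_fo_adj {h : ℤ} {a b : V} (hab : Adj a b) : Adj (TR2_fo h a) (TR2_fo h b) := by
  rw [adj_iff] at hab
  by_cases ha : a.2 ≤ h <;> by_cases hb : b.2 ≤ h
  · rw [TR2_fo_of_le ha, TR2_fo_of_le hb, adj_iff]
    exact hab
  · rw [TR2_fo_of_le ha, TR2_fo_of_gt hb, adj_iff]
    refine ⟨⟨?_, ?_, ?_, ?_⟩, ?_, ?_⟩ <;> dsimp only <;> omega
  · rw [TR2_fo_of_gt ha, TR2_fo_of_le hb, adj_iff]
    refine ⟨⟨?_, ?_, ?_, ?_⟩, ?_, ?_⟩ <;> dsimp only <;> omega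
  · rw [TR2_fo_of_gt ha, TR2_fo_of_gt hb, adj_iff]
    refine ⟨⟨?_, ?_, ?_, ?_⟩, ?_, ?_⟩ <;> dsimp only <;> omega

theorem TR2 (hRC : RC_stmt) (h5 : RR5_stmt) : TR2_stmt := by
  intro c w h hw hh hv hF
  obtain ⟨u, t, hu, ht, hut⟩ := h5 c w h hw (by omega) hv
  set X := RV c w h with hX
  have hXR : ∀ z ∈ X, 0 ≤ z.1 ∧ z.1 ≤ w ∧ 0 ≤ z.2 ∧ z.2 ≤ h := fun z hz => hz.1
  set W₁ : Set V := {z | Conn c true X u z} with hW₁
  have hW₁X : ∀ z ∈ W₁, z ∈ X := fun z hz => (DP.Con.mem_right hz).1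
  have hW₁c : ∀ z ∈ W₁, c z = true := fun z hz => (DP.Con.mem_right hz).2
  have hcl : DP.Con W₁ u t := DP.Con.cluster hut
  have huW : u ∈ W₁ := DP.Con.mem_left hcl
  have huX : u ∈ X := hW₁X u huW
  set WLs : Set V := WL c w h with hWL
  have hWLr : ∀ z ∈ WLs, 0 ≤ z.1 ∧ z.1 ≤ w ∧ 0 ≤ z.2 ∧ z.2 ≤ h := by
    rintro z ⟨p, _, hz⟩
    exact (DP.Con.mem_right hz).1
  have hWLc : ∀ z ∈ WLs, c z = false := by
    rintro z ⟨p, _, hz⟩
    exact (DP.Con.mem_right hz).2
  have hWLX : ∀ z ∈ WLs, z ∈ X := fun z hz => ⟨hWLr z hz, Or.inr (Or.inl hz)⟩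
  have hleft : ∀ v ∈ X, ∃ p : V, p.1 = 0 ∧ DP.Con (WLs ∪ {v}) p v := by
    intro v hvX
    rcases hvX.2 with h0 | h0 | ⟨w', hw', hwv⟩
    · exact ⟨v, h0, DP.Con.refl (Or.inr rfl)⟩
    · obtain ⟨p, hp, hpv⟩ := h0
      refine ⟨p, hp, (DP.Con.cluster hpv).mono ?_⟩
      intro z hz
      exact Or.inl ⟨p, hp, hz⟩
    · obtain ⟨p, hp, hpw⟩ := hw'
      refine ⟨p, hp, (DP.Con.mono ?_ (DP.Con.cluster hpw)).step hwv (Or.inr rfl)⟩
      intro z hz
      exact Or.inl ⟨p, hp, hz⟩
  have hwhite : ∀ z ∈ WLs, z ∉ W₁ := by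
    intro z hz hz'
    have h1 := hWLc z hz
    rw [hW₁c z hz'] at h1
    exact absurd h1 (by simp)
  obtain ⟨v, hvX, hvF⟩ := hF
  have hvR := hXR v hvX
  obtain ⟨p, hp, hpv⟩ := hleft v hvX
  have hub : ∀ z ∈ W₁, Conn c true (rect 0 w 0 (2 * h)) u z := by
    intro z hz
    refine DP.Con.mono ?_ hz
    rintro x ⟨hx1, hx2⟩
    have := hXR x hx1
    exact ⟨⟨this.1, this.2.1, this.2.2.1, by omega⟩, hx2⟩
  have hvv : DP.Con W₁ u t := hcl
  rcases hvF with hvU | ⟨z, y, hvz, hyU, hzy⟩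
  · -- `v` is in the upper right part
    have hv1 : v.1 = w := by
      unfold UR at hvU
      omega
    obtain ⟨z, hz1, hz2⟩ := hRC 0 w 0 h (WLs ∪ {v}) W₁ (by
        rintro z (hz | hz)
        · exact hWLr z hz
        · rw [Set.mem_singleton_iff.1 hz]; exact hvR) (fun z hz => hXR z (hW₁X z hz)) p v u t hp hv1
      hu ht hpv hcl
    have hzv : z = v := by
      rcases hz1 with hz1 | hz1
      · exact absurd hz2 (hwhite z hz1)
      · exact hz1
    rw [hzv] at hz2
    exact ⟨u, v, hu, hvU, hub v hz2⟩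
  · set Wo : Set V := {z | z ∈ {z | z ∈ rect 0 w 0 (2 * h) ∧ z ∉ X ∧ rf h z ∉ X} ∧ c z = true}
      with hWo
    have hzy' : DP.Con Wo z y := hzy
    set F : Set V := {z | z ∈ rect 0 w 0 h ∧ z ∉ X} with hFdef
    have hFr : ∀ z ∈ F, 0 ≤ z.1 ∧ z.1 ≤ w ∧ 0 ≤ z.2 ∧ z.2 ≤ h := fun z hz => hz.1
    have hfo : ∀ x ∈ Wo, TR2_fo h x ∈ F := by
      rintro x ⟨⟨⟨g1, g2, g3, g4⟩, hx2, hx3⟩, -⟩
      by_cases hx : x.2 ≤ h
      · rw [TR2_fo_of_le hx]
        exact ⟨⟨g1, g2, g3, hx⟩, hx2⟩
      · refine ⟨?_, ?_⟩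
        · rw [TR2_fo_of_gt hx]
          refine ⟨g1, g2, ?_, ?_⟩ <;> dsimp only <;> omega
        · rw [TR2_fo_of_gt hx]
          exact hx3
    have hfoc : ∀ {r s : V}, DP.Con Wo r s → DP.Con F (TR2_fo h r) (TR2_fo h s) := by
      intro r s hrs
      exact DP.Con.induct' hrs (fun x => DP.Con F (TR2_fo h r) (TR2_fo h x))
        (DP.Con.refl (hfo r (DP.Con.mem_left hrs)))
        fun a b _ hb hab hP => hP.step (TR2_fo_adj hab) (hfo b hb)
    have hzW : z ∈ Wo := DP.Con.mem_left hzy'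
    have hyW : y ∈ Wo := DP.Con.mem_right hzy'
    have hyR : 0 ≤ y.1 ∧ y.1 ≤ w ∧ 0 ≤ y.2 ∧ y.2 ≤ 2 * h := hyW.1.1
    have hzR : 0 ≤ z.1 ∧ z.1 ≤ w ∧ 0 ≤ z.2 ∧ z.2 ≤ 2 * h := hzW.1.1
    have hvfz : Adj v (TR2_fo h z) := by
      have := TR2_fo_adj (h := h) hvz
      rwa [TR2_fo_of_le hvR.2.2.2] at this
    have hFX : ∀ x ∈ F, x ∉ W₁ := fun x hx hx' => hx.2 (hW₁X x hx')
    have hvy : DP.Con (F ∪ {v}) v (TR2_fo h y) :=
      ((DP.Con.refl (Or.inr rfl) : DP.Con (F ∪ {v}) v v).step hvfz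
        (Or.inl (hfo z hzW))).trans ((hfoc hzy').mono fun x hx => Or.inl hx)
    have hvW : v ∈ W₁ := by
      by_cases hy1 : y.1 = w ∧ h ≤ y.2
      · -- right side
        obtain ⟨x, hx1, hx2⟩ := hRC 0 w 0 h ((WLs ∪ {v}) ∪ (F ∪ {v})) W₁ (by
            rintro z ((hz | hz) | (hz | hz))
            · exact hWLr z hz
            · rw [Set.mem_singleton_iff.1 hz]; exact hvR
            · exact hFr z hz
            · rw [Set.mem_singleton_iff.1 hz]; exact hvR) (fun z hz => hXR z (hW₁X z hz))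
          p (TR2_fo h y) u t hp (by rw [TR2_fo_fst]; exact hy1.1) hu ht
          ((hpv.mono fun z hz => Or.inl hz).trans (hvy.mono fun z hz => Or.inr hz)) hcl
        rcases hx1 with (hx1 | hx1) | (hx1 | hx1)
        · exact absurd hx2 (hwhite x hx1)
        · rw [← Set.mem_singleton_iff.1 hx1]; exact hx2
        · exact absurd hx2 (hFX x hx1)
        · rw [← Set.mem_singleton_iff.1 hx1]; exact hx2
      · have hy2 : y.2 = 2 * h := by
          rcases hyU with h1 | h1
          · exact h1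
          · exact absurd h1 hy1
        have hyf : TR2_fo h y = (y.1, 0) := by
          rw [TR2_fo_of_gt (by omega)]
          ext
          · rfl
          · dsimp only; omega
        have hyfF := hfo y hyW
        rw [hyf] at hyfF hvy
        have hne : y.1 ≠ u.1 := by
          intro he
          apply hyfF.2
          have : (y.1, (0 : ℤ)) = u := by
            ext
            · exact he
            · exact hu.symm
          rw [this]
          exact huX
        rcases lt_or_gt_of_ne hne with hlt | hgt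
        · -- `y` on the left of `u`
          have hvWL : v ∉ WLs := by
            intro h1
            apply (hfo z hzW).2
            exact ⟨(hfo z hzW).1, Or.inr (Or.inr ⟨v, h1, hvfz⟩)⟩
          obtain ⟨p', hp', hpu⟩ := hleft u huX
          -- a site in the row `h`
          have hr : ∃ r : V, r.2 = h ∧ DP.Con (F ∪ {v}) r (y.1, 0) := by
            by_cases hz2 : z.2 ≤ h
            · obtain ⟨r, hr, hr'⟩ := RHM_hit (fun x => x.2)
                (fun a b hab => by rw [adj_iff] at hab; omega) h hzy' hz2 (by omega)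
              have h1 : DP.Con Wo z r := hr'.mono Set.inter_subset_left
              have h2 : DP.Con Wo r y := h1.symm.trans hzy'
              have h3 := hfoc h2
              rw [hyf, TR2_fo_of_le (le_of_eq hr)] at h3
              exact ⟨r, hr, h3.mono fun x hx => Or.inl hx⟩
            · refine ⟨v, ?_, hvy⟩
              have := adj_iff.1 hvz
              omega
          obtain ⟨r, hr, hry⟩ := hr
          set LR : Set V := (WLs ∪ {u}) ∪ {x | x.2 = -1 ∧ u.1 ≤ x.1 ∧ x.1 ≤ w} with hLR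
          set TB : Set V := (F ∪ {v}) ∪ {x | x.2 = -1 ∧ x.1 = y.1} with hTB
          have huR := hXR u huX
          have c1 : DP.Con LR p' (w, -1) := by
            have d1 : DP.Con LR p' u := hpu.mono fun x hx => Or.inl hx
            have d2 : DP.Con LR p' (u.1, -1) := by
              refine d1.step ?_ (Or.inr ⟨rfl, le_rfl, huR.2.1⟩)
              rw [adj_iff]
              refine ⟨⟨?_, ?_, ?_, ?_⟩, ?_, ?_⟩ <;> dsimp only <;> omega
            exact d2.trans (con_horiz _ _ _ huR.2.1 fun s h1 h2 => Or.inr ⟨rfl, h1, h2⟩)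
          have c2 : DP.Con TB (y.1, -1) r := by
            have d1 : DP.Con TB r (y.1, 0) := hry.mono fun x hx => Or.inl hx
            have d2 : DP.Con TB r (y.1, -1) := by
              refine d1.step ?_ (Or.inr ⟨rfl, rfl⟩)
              rw [adj_iff]
              refine ⟨⟨?_, ?_, ?_, ?_⟩, ?_, ?_⟩ <;> dsimp only <;> omega
            exact d2.symm
          obtain ⟨x, hx1, hx2⟩ := hRC 0 w (-1) h LR TB (by
              rintro x ((hx | hx) | ⟨k1, k2, k3⟩)
              · have := hWLr x hx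
                show 0 ≤ x.1 ∧ x.1 ≤ w ∧ -1 ≤ x.2 ∧ x.2 ≤ h
                omega
              · rw [Set.mem_singleton_iff.1 hx]
                show 0 ≤ u.1 ∧ u.1 ≤ w ∧ -1 ≤ u.2 ∧ u.2 ≤ h
                omega
              · show 0 ≤ x.1 ∧ x.1 ≤ w ∧ -1 ≤ x.2 ∧ x.2 ≤ h
                omega) (by
              rintro x ((hx | hx) | ⟨k1, k2⟩)
              · have := hFr x hx
                show 0 ≤ x.1 ∧ x.1 ≤ w ∧ -1 ≤ x.2 ∧ x.2 ≤ h
                omega
              · rw [Set.mem_singleton_iff.1 hx]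
                show 0 ≤ v.1 ∧ v.1 ≤ w ∧ -1 ≤ v.2 ∧ v.2 ≤ h
                omega
              · show 0 ≤ x.1 ∧ x.1 ≤ w ∧ -1 ≤ x.2 ∧ x.2 ≤ h
                omega) p' (w, -1) (y.1, -1) r hp' rfl rfl hr c1 c2
          rcases hx2 with (hx2 | hx2) | ⟨k1, k2⟩
          · exfalso
            have g1 := hFr x hx2
            rcases hx1 with (hx1 | hx1) | ⟨k1, k2, k3⟩
            · exact hx2.2 (hWLX x hx1)
            · rw [Set.mem_singleton_iff.1 hx1] at hx2
              exact hx2.2 huX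
            · omega
          · rw [Set.mem_singleton_iff.1 hx2] at hx1
            rcases hx1 with (hx1 | hx1) | ⟨k1, k2, k3⟩
            · exact absurd hx1 hvWL
            · rw [Set.mem_singleton_iff.1 hx1]
              exact huW
            · omega
          · exfalso
            rcases hx1 with (hx1 | hx1) | ⟨k3, k4, k5⟩
            · have := hWLr x hx1
              omega
            · rw [Set.mem_singleton_iff.1 hx1] at k1
              omega
            · omega
        · -- `y` on the right of `u`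
          set LR : Set V := ((WLs ∪ {v}) ∪ (F ∪ {v})) ∪ {x | x.2 = -1 ∧ y.1 ≤ x.1 ∧ x.1 ≤ w} with hLR
          set TB : Set V := W₁ ∪ {x | x.2 = -1 ∧ x.1 = u.1} with hTB
          have huR := hXR u huX
          have c1 : DP.Con LR p (w, -1) := by
            have d1 : DP.Con LR p (y.1, 0) :=
              (hpv.mono fun z hz => Or.inl (Or.inl hz)).trans
                (hvy.mono fun z hz => Or.inl (Or.inr hz))
            have d2 : DP.Con LR p (y.1, -1) := by
              refine d1.step ?_ (Or.inr ⟨rfl, le_rfl, hyR.2.1⟩)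
              rw [adj_iff]
              refine ⟨⟨?_, ?_, ?_, ?_⟩, ?_, ?_⟩ <;> dsimp only <;> omega
            exact d2.trans (con_horiz _ _ _ hyR.2.1 fun s h1 h2 => Or.inr ⟨rfl, h1, h2⟩)
          have c2 : DP.Con TB (u.1, -1) t := by
            have d1 : DP.Con TB t u := (hcl.symm).mono fun x hx => Or.inl hx
            have d2 : DP.Con TB t (u.1, -1) := by
              refine d1.step ?_ (Or.inr ⟨rfl, rfl⟩)
              rw [adj_iff]
              refine ⟨⟨?_, ?_, ?_, ?_⟩, ?_, ?_⟩ <;> dsimp only <;> omega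
            exact d2.symm
          obtain ⟨x, hx1, hx2⟩ := hRC 0 w (-1) h LR TB (by
              rintro x (((hx | hx) | (hx | hx)) | ⟨k1, k2, k3⟩)
              · have := hWLr x hx
                show 0 ≤ x.1 ∧ x.1 ≤ w ∧ -1 ≤ x.2 ∧ x.2 ≤ h
                omega
              · rw [Set.mem_singleton_iff.1 hx]
                show 0 ≤ v.1 ∧ v.1 ≤ w ∧ -1 ≤ v.2 ∧ v.2 ≤ h
                omega
              · have := hFr x hx
                show 0 ≤ x.1 ∧ x.1 ≤ w ∧ -1 ≤ x.2 ∧ x.2 ≤ h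
                omega
              · rw [Set.mem_singleton_iff.1 hx]
                show 0 ≤ v.1 ∧ v.1 ≤ w ∧ -1 ≤ v.2 ∧ v.2 ≤ h
                omega
              · show 0 ≤ x.1 ∧ x.1 ≤ w ∧ -1 ≤ x.2 ∧ x.2 ≤ h
                omega) (by
              rintro x (hx | ⟨k1, k2⟩)
              · have := hXR x (hW₁X x hx)
                show 0 ≤ x.1 ∧ x.1 ≤ w ∧ -1 ≤ x.2 ∧ x.2 ≤ h
                omega
              · show 0 ≤ x.1 ∧ x.1 ≤ w ∧ -1 ≤ x.2 ∧ x.2 ≤ h
                omega) p (w, -1) (u.1, -1) t hp rfl rfl ht c1 c2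
          rcases hx2 with hx2 | ⟨k1, k2⟩
          · have g1 := hXR x (hW₁X x hx2)
            rcases hx1 with ((hx1 | hx1) | (hx1 | hx1)) | ⟨k1, k2, k3⟩
            · exact absurd hx2 (hwhite x hx1)
            · rw [← Set.mem_singleton_iff.1 hx1]; exact hx2
            · exact absurd hx2 (hFX x hx1)
            · rw [← Set.mem_singleton_iff.1 hx1]; exact hx2
            · omega
          · exfalso
            rcases hx1 with ((hx1 | hx1) | (hx1 | hx1)) | ⟨k3, k4, k5⟩
            · have := hWLr x hx1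
              omega
            · rw [Set.mem_singleton_iff.1 hx1] at k1
              omega
            · have := hFr x hx1
              omega
            · rw [Set.mem_singleton_iff.1 hx1] at k1
              omega
            · omega
    refine ⟨u, y, hu, hyU, ?_⟩
    have h1 : Conn c true (rect 0 w 0 (2 * h)) z y := by
      refine DP.Con.mono ?_ hzy'
      rintro x ⟨⟨hx1, -⟩, hx2⟩
      exact ⟨hx1, hx2⟩
    exact (DP.Con.step (hub v hvW) hvz (DP.Con.mem_left h1)).trans h1

end TP
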