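import Pool.Agent.helper61.TP.SpecR
import Pool.Agent.helper14.DP.RR3

/-!
# Project sp, module TR3: duality to the right of a set and of its mirror image
-/

namespace TP

open DP

/-- The frame is black at these sites. -/
def TR3_blk (w h : ℤ) (v : V) : Prop :=
  (v.1 = -1 ∧ 0 ≤ v.2 ∧ v.2 ≤ h) ∨ (v.2 = 2 * h + 1 ∧ 0 ≤ v.1) ∨ (v.1 = w + 1 ∧ h + 1 ≤ v.2)

open Classical in
/-- The extended colouring. -/
noncomputable def TR3_e (c : V → Bool) (X : Set V) (w h : ℤ) (v : V) : Bool :=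
  if v ∈ rect 0 w 0 (2 * h) then (if v ∈ X then true else if rf h v ∈ X then false else c v)
  else decide (TR3_blk w h v)

theorem TR3_e_frame {c : V → Bool} {X : Set V} {w h : ℤ} {v : V} (hv : v ∉ rect 0 w 0 (2 * h)) :
    TR3_e c X w h v = true ↔ TR3_blk w h v := by
  classical
  unfold TR3_e
  rw [if_neg hv]
  simp

theorem TR3_e_in {c : V → Bool} {X : Set V} {w h : ℤ} {v : V} (hv : v ∈ rect 0 w 0 (2 * h))
    (hX : v ∉ X) (hX' : rf h v ∉ X) : TR3_e c X w h v = c v := by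
  classical
  unfold TR3_e
  rw [if_pos hv, if_neg hX, if_neg hX']

theorem TR3_e_X {c : V → Bool} {X : Set V} {w h : ℤ} {v : V} (hv : v ∈ rect 0 w 0 (2 * h))
    (hX : v ∈ X) : TR3_e c X w h v = true := by
  classical
  unfold TR3_e
  rw [if_pos hv, if_pos hX]

theorem TR3_e_rX {c : V → Bool} {X : Set V} {w h : ℤ} {v : V} (hv : v ∈ rect 0 w 0 (2 * h))
    (hX : v ∉ X) (hX' : rf h v ∈ X) : TR3_e c X w h v = false := by
  classical
  unfold TR3_e
  rw [if_pos hv, if_neg hX, if_pos hX']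

theorem TR3 (hHX : HX_stmt) : TR3_stmt := by
  classical
  intro c X w h hw hh hpar hXR hX0
  have hX' : ∀ v ∈ X, 0 ≤ v.1 ∧ v.1 ≤ w ∧ 0 ≤ v.2 ∧ v.2 ≤ h := fun v hv => hXR hv
  have hXr : ∀ v : V, rf h v ∈ X → 0 ≤ v.1 ∧ v.1 ≤ w ∧ h ≤ v.2 ∧ v.2 ≤ 2 * h := by
    intro v hv
    have h1 := hX' _ hv
    unfold rf at h1
    simp only at h1
    omega
  have hcol : ∀ v : V, v.1 = 0 → 0 ≤ v.2 → v.2 ≤ 2 * h → v ∈ X ∨ rf h v ∈ X := by
    intro v h1 h2 h3
    by_cases h4 : v.2 ≤ h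
    · left
      have := hX0 v.2 h2 h4
      rwa [← h1] at this
    · right
      have := hX0 (2 * h - v.2) (by omega) (by omega)
      rw [← h1] at this
      exact this
  have hrfadj : ∀ {a b : V}, Adj a b → Adj (rf h a) (rf h b) := fun hab => RR3_rf_adj h hab
  have hrfrf : ∀ a : V, rf h (rf h a) = a := RR3_rf_rf h
  rcases hHX (TR3_e c X w h) true (-1) (w + 1) (-1) (2 * h + 1) (by omega) (by omega) with
    ⟨u, v, hu, hv, hc⟩ | ⟨u, v, hu, hv, hc⟩
  · -- black crossing from the left to the right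
    left
    set W : Set V := {z | z ∈ rect (-1) (w + 1) (-1) (2 * h + 1) ∧ TR3_e c X w h z = true} with hW
    have hc' : Con W u v := hc
    set Z : Set V := {z | z ∈ X ∨ (z.1 = -1 ∧ z.2 ≤ h)} with hZ
    set F : Set V := {z | (z.2 = 2 * h + 1 ∧ 0 ≤ z.1) ∨ (z.1 = w + 1 ∧ h + 1 ≤ z.2)} with hF
    have hnot : ∀ z : V, (z.1 = -1 ∨ z.1 = w + 1 ∨ z.2 = -1 ∨ z.2 = 2 * h + 1) →
        z ∉ rect 0 w 0 (2 * h) := by
      rintro z hz ⟨h1, h2, h3, h4⟩
      omega
    have huZ : u ∈ Z := by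
      have h1 := (TR3_e_frame (hnot u (Or.inl hu))).1 (Con.mem_left hc').2
      unfold TR3_blk at h1
      right
      refine ⟨hu, ?_⟩
      omega
    have hvF : v ∈ F := by
      have h1 := (TR3_e_frame (hnot v (Or.inr (Or.inl hv)))).1 (Con.mem_right hc').2
      unfold TR3_blk at h1
      show (v.2 = 2 * h + 1 ∧ 0 ≤ v.1) ∨ (v.1 = w + 1 ∧ h + 1 ≤ v.2)
      omega
    have hvZ : v ∉ Z := by
      rintro (h1 | h1)
      · have := hX' v h1
        omega
      · omega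
    rcases RR3_last hc' huZ with h1 | ⟨a, b, haW, haZ, hab, hbv⟩
    · exact absurd h1 hvZ
    -- inner sites of the last part
    have hinner : ∀ z ∈ (W \ Z) \ F, z ∈ rect 0 w 0 (2 * h) ∧ z ∉ X ∧ rf h z ∉ X ∧ c z = true := by
      rintro z ⟨⟨⟨hz1, hz2⟩, hz3⟩, hz4⟩
      have hzr : z ∈ rect 0 w 0 (2 * h) := by
        by_contra hcon
        have h1 := (TR3_e_frame hcon).1 hz2
        rcases h1 with h1 | h1 | h1
        · exact hz3 (Or.inr ⟨h1.1, h1.2.2⟩)
        · exact hz4 (Or.inl h1)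
        · exact hz4 (Or.inr h1)
      have hzX : z ∉ X := fun h1 => hz3 (Or.inl h1)
      have hzX' : rf h z ∉ X := by
        intro h1
        rw [TR3_e_rX hzr hzX h1] at hz2
        exact absurd hz2 (by simp)
      refine ⟨hzr, hzX, hzX', ?_⟩
      rw [TR3_e_in hzr hzX hzX'] at hz2
      exact hz2
    have hUR : ∀ p q : V, p ∈ rect 0 w 0 (2 * h) → q ∈ F → Adj p q → UR w h p := by
      rintro p q ⟨h1, h2, h3, h4⟩ hq hpq
      rw [adj_iff] at hpq
      unfold UR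
      rcases hq with h5 | h5 <;> omega
    -- the site `a` is in `X`
    have haX : a ∈ X := by
      rcases haZ with h1 | ⟨h1, h2⟩
      · exact h1
      exfalso
      have hbW : b ∈ W \ Z := Con.mem_left hbv
      have hadj := adj_iff.1 hab
      have hbR : -1 ≤ b.1 ∧ b.1 ≤ w + 1 ∧ -1 ≤ b.2 ∧ b.2 ≤ 2 * h + 1 := hbW.1.1
      by_cases hb : b ∈ F
      · rcases hb with h5 | h5 <;> omega
      · obtain ⟨h3, h4, h5, -⟩ := hinner b ⟨hbW, hb⟩
        obtain ⟨g1, g2, g3, g4⟩ := h3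
        rcases hcol b (by omega) g3 g4 with h6 | h6
        · exact h4 h6
        · exact h5 h6
    refine ⟨a, haX, ?_⟩
    have haR : a ∈ rect 0 w 0 (2 * h) := by
      have h1 := hX' a haX
      exact ⟨h1.1, h1.2.1, h1.2.2.1, by omega⟩
    rcases RR3_last hbv.symm hvF with h1 | ⟨p, q, hpW, hpF, hpq, hqb⟩
    · exact Or.inl (hUR a b haR h1 hab)
    · right
      have hq := hinner q (Con.mem_left hqb)
      refine ⟨b, q, hab, hUR q p hq.1 hpF hpq.symm, ?_⟩
      refine (hqb.symm).mono ?_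
      intro z hz
      obtain ⟨h1, h2, h3, h4⟩ := hinner z hz
      exact ⟨⟨h1, h2, h3⟩, h4⟩
  · -- white crossing from the bottom to the top
    right
    set W : Set V := {z | z ∈ rect (-1) (w + 1) (-1) (2 * h + 1) ∧ TR3_e c X w h z = !true} with hW
    have hc' : Con W u v := hc
    set Z : Set V := {z | rf h z ∈ X ∨ (z.1 = -1 ∧ h + 1 ≤ z.2)} with hZ
    set F : Set V := {z | z.2 = -1 ∨ (z.1 = w + 1 ∧ z.2 ≤ h)} with hF
    have hnot : ∀ z : V, (z.1 = -1 ∨ z.1 = w + 1 ∨ z.2 = -1 ∨ z.2 = 2 * h + 1) →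
        z ∉ rect 0 w 0 (2 * h) := by
      rintro z hz ⟨h1, h2, h3, h4⟩
      omega
    have hfalse : ∀ z ∈ W, z ∉ rect 0 w 0 (2 * h) → ¬ TR3_blk w h z := by
      intro z hz hz' hb
      have h1 := (TR3_e_frame (c := c) (X := X) hz').2 hb
      rw [hz.2] at h1
      exact absurd h1 (by simp)
    have hvR : -1 ≤ v.1 ∧ v.1 ≤ w + 1 ∧ -1 ≤ v.2 ∧ v.2 ≤ 2 * h + 1 := (Con.mem_right hc').1
    have hvZ : v ∈ Z := by
      have h1 := hfalse v (Con.mem_right hc') (hnot v (Or.inr (Or.inr (Or.inr hv))))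
      unfold TR3_blk at h1
      right
      omega
    have huF : u ∈ F := Or.inl hu
    have huZ : u ∉ Z := by
      rintro (h1 | h1)
      · have := hXr u h1
        omega
      · omega
    rcases RR3_last hc'.symm hvZ with h1 | ⟨a, b, haW, haZ, hab, hbu⟩
    · exact absurd h1 huZ
    have hinner : ∀ z ∈ (W \ Z) \ F, z ∈ rect 0 w 0 (2 * h) ∧ z ∉ X ∧ rf h z ∉ X ∧ c z = false := by
      rintro z ⟨⟨⟨hz1, hz2⟩, hz3⟩, hz4⟩
      have hz1' : -1 ≤ z.1 ∧ z.1 ≤ w + 1 ∧ -1 ≤ z.2 ∧ z.2 ≤ 2 * h + 1 := hz1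
      have hz3' : ¬ (z.1 = -1 ∧ h + 1 ≤ z.2) := fun h1 => hz3 (Or.inr h1)
      have hz4' : ¬ (z.2 = -1 ∨ (z.1 = w + 1 ∧ z.2 ≤ h)) := hz4
      have hzr : z ∈ rect 0 w 0 (2 * h) := by
        by_contra hcon
        have h1 := hfalse z ⟨hz1, hz2⟩ hcon
        apply hcon
        unfold TR3_blk at h1
        show 0 ≤ z.1 ∧ z.1 ≤ w ∧ 0 ≤ z.2 ∧ z.2 ≤ 2 * h
        omega
      have hzX : z ∉ X := by
        intro h1
        rw [TR3_e_X hzr h1] at hz2
        exact absurd hz2 (by simp)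
      have hzX' : rf h z ∉ X := fun h1 => hz3 (Or.inl h1)
      refine ⟨hzr, hzX, hzX', ?_⟩
      rw [TR3_e_in hzr hzX hzX'] at hz2
      simpa using hz2
    have hUR : ∀ p q : V, p ∈ rect 0 w 0 (2 * h) → q ∈ F → Adj p q → UR w h (rf h p) := by
      rintro p q ⟨h1, h2, h3, h4⟩ hq hpq
      rw [adj_iff] at hpq
      unfold UR rf
      simp only
      rcases hq with h5 | h5 <;> omega
    have haX : rf h a ∈ X := by
      rcases haZ with h1 | ⟨h1, h2⟩
      · exact h1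
      exfalso
      have hbW : b ∈ W \ Z := Con.mem_left hbu
      have hadj := adj_iff.1 hab
      have hbR : -1 ≤ b.1 ∧ b.1 ≤ w + 1 ∧ -1 ≤ b.2 ∧ b.2 ≤ 2 * h + 1 := hbW.1.1
      by_cases hb : b ∈ F
      · rcases hb with h5 | h5 <;> omega
      · obtain ⟨h3, h4, h5, -⟩ := hinner b ⟨hbW, hb⟩
        obtain ⟨g1, g2, g3, g4⟩ := h3
        rcases hcol b (by omega) g3 g4 with h6 | h6
        · exact h4 h6
        · exact h5 h6
    refine ⟨rf h a, haX, ?_⟩
    have haR : a ∈ rect 0 w 0 (2 * h) := by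
      have h1 := hXr a haX
      exact ⟨h1.1, h1.2.1, by omega, by omega⟩
    rcases RR3_last hbu.symm huF with h1 | ⟨p, q, hpW, hpF, hpq, hqb⟩
    · exact Or.inl (hUR a b haR h1 hab)
    · right
      have hq := hinner q (Con.mem_left hqb)
      refine ⟨rf h b, rf h q, hrfadj hab, hUR q p hq.1 hpF hpq.symm, ?_⟩
      have key : ∀ z ∈ (W \ Z) \ F, rf h z ∈ {z | z ∈ {z | z ∈ rect 0 w 0 (2 * h) ∧ z ∉ X ∧
          rf h z ∉ X} ∧ (!(c (rf h z))) = true} := by
        intro z hz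
        obtain ⟨h1, h2, h3, h4⟩ := hinner z hz
        obtain ⟨g1, g2, g3, g4⟩ := h1
        refine ⟨⟨⟨g1, g2, ?_, ?_⟩, h3, ?_⟩, ?_⟩
        · show 0 ≤ 2 * h - z.2
          omega
        · show 2 * h - z.2 ≤ 2 * h
          omega
        · rw [hrfrf]
          exact h2
        · rw [hrfrf, h4]
          rfl
      exact DP.Con.induct' hqb.symm (fun z => Con {z | z ∈ {z | z ∈ rect 0 w 0 (2 * h) ∧ z ∉ X ∧
          rf h z ∉ X} ∧ (!(c (rf h z))) = true} (rf h b) (rf h z))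
        (DP.Con.refl (key b (DP.Con.mem_right hqb)))
        fun p q _ hq hpq hP => hP.step (hrfadj hpq) (key q hq)

end TP
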