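import Pool.Agent.helper61.TP.TQ
import Pool.Agent.helper61.TP.TGP
import Pool.Agent.helper61.TP.TR2
import Pool.Agent.helper61.TP.TR3
import Pool.Agent.helper61.TP.TGD
import Pool.Agent.helper61.DP.AsmA

/-!
# Project sp, modules TTL, TLG, RSW: tall and long rectangles, all rectangles
-/

namespace TP

open DP MeasureTheory

theorem RSW_ph_mono {k : Bool} {a b d e a' b' d' e' : ℤ} (h1 : a ≤ a') (h2 : a' ≤ b') (h3 : b' ≤ b)
    (h4 : d' ≤ d) (h5 : e ≤ e') : ph k a b d e ≤ ph k a' b' d' e' := by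
  have : IsProbabilityMeasure P1 := by unfold P1; infer_instance
  unfold ph Pr
  refine measureReal_mono ?_ (measure_ne_top _ _)
  intro x hx
  exact RHM.1 (col x) k a b d e a' b' d' e' h1 h2 h3 h4 h5 hx

theorem RSW_pv_mono {k : Bool} {a b d e a' b' d' e' : ℤ} (h1 : a' ≤ a) (h2 : b ≤ b') (h3 : d ≤ d')
    (h4 : d' ≤ e') (h5 : e' ≤ e) : pv k a b d e ≤ pv k a' b' d' e' := by
  have : IsProbabilityMeasure P1 := by unfold P1; infer_instance
  unfold pv Pr
  refine measureReal_mono ?_ (measure_ne_top _ _)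
  intro x hx
  exact RHM.2 (col x) k a b d e a' b' d' e' h1 h2 h3 h4 h5 hx

theorem TTL (hQ : TQ0_stmt) (hG : TGP_stmt) : TTL_stmt := by
  intro j
  induction j with
  | zero =>
    refine ⟨1 / 2, by norm_num, fun m hm => ?_⟩
    refine ((hQ (2 * m) (by omega)).2).trans ?_
    refine RSW_pv_mono (by omega) (by omega) (by omega) ?_ ?_ <;> (rw [pow_zero, one_mul]; try omega)
  | succ j ih =>
    obtain ⟨c, hc, h⟩ := ih
    refine ⟨c ^ 2 / 4, by positivity, fun m hm => ?_⟩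
    have h1 := h m hm
    have hp : (1 : ℤ) ≤ 2 ^ j := one_le_pow₀ (by norm_num)
    have h2 : (1 : ℤ) ≤ 2 ^ j * (2 * m) := by nlinarith
    have h3 := hG (6 * m + 2) (2 ^ j * (2 * m)) (by omega) h2 (by
      have : (6 * m + 2 + 2 ^ j * (2 * m)) = 2 * (3 * m + 1 + 2 ^ j * m) := by ring
      rw [this]
      exact Int.mul_emod_right _ _)
    have h4 : (2 : ℤ) * (2 ^ j * (2 * m)) = 2 ^ (j + 1) * (2 * m) := by ring
    rw [h4] at h3
    refine le_trans ?_ h3
    have : c ^ 2 ≤ (pv true 0 (6 * m + 2) 0 (2 ^ j * (2 * m))) ^ 2 := pow_le_pow_left₀ hc.le h1 2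
    linarith

theorem TLG (hQ : TQ0_stmt) (hT : TTL_stmt) (hGL : TGL_stmt) : TLG_stmt := by
  intro j
  have : IsProbabilityMeasure P1 := by unfold P1; infer_instance
  induction j with
  | zero =>
    refine ⟨1 / 2, by norm_num, fun m hm => ?_⟩
    have h1 := (hQ (32 * m) (by omega)).1
    have h2 := (TSX.1 true 1 (32 * m) 0 (32 * m) (32 * m) 0 (by omega)).1
    have e1 : (1 : ℤ) + 32 * m = 32 * m + 1 := by ring
    have e2 : (32 : ℤ) * m + 32 * m = 2 * (32 * m) := by ring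
    rw [e1, e2, add_zero, add_zero] at h2
    rw [h2] at h1
    have e3 : 16 * m * (((0 : ℕ) : ℤ) + 2) = 32 * m := by push_cast; ring
    rw [e3]
    exact h1
  | succ j ih =>
    obtain ⟨c, hc, h⟩ := ih
    obtain ⟨t, ht, h'⟩ := hT 4
    refine ⟨c * (1 / 2) * t, by positivity, fun m hm => ?_⟩
    set s : ℤ := 16 * m * (j + 1) with hs
    have hj0 : (0 : ℤ) ≤ j := by positivity
    have hs0 : 16 * m ≤ s := by rw [hs]; nlinarith
    have es : s % 2 = 0 := by
      rw [hs, show (16 * m * ((j : ℤ) + 1)) = 2 * (8 * m * (j + 1)) by ring]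
      exact Int.mul_emod_right _ _
    have eb : 16 * m * ((j : ℤ) + 2) = s + 16 * m := by rw [hs]; ring
    have eb' : 16 * m * (((j + 1 : ℕ) : ℤ) + 2) = s + 32 * m := by rw [hs]; push_cast; ring
    have h1 := h m hm
    rw [eb] at h1
    rw [eb']
    -- the block
    have h2 : 1 / 2 ≤ ph true (s + 1) (s + 32 * m) 0 (32 * m) := by
      have g1 := (hQ (32 * m) (by omega)).1
      have g2 := (TSX.1 true (s + 1) (s + 32 * m) 0 (32 * m) (32 * m - s) 0 (by omega)).1
      have e1 : s + 1 + (32 * m - s) = 32 * m + 1 := by ring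
      have e2 : s + 32 * m + (32 * m - s) = 2 * (32 * m) := by ring
      rw [e1, e2, add_zero, add_zero] at g2
      rw [g2] at g1
      exact g1
    have h3 : t ≤ pv true (s + 1) (s + 16 * m) 0 (32 * m) := by
      have g1 := h' m hm
      have g2 := (TSX.1 true 0 (6 * m + 2) 0 (32 * m) (s + 2) 0 (by omega)).2
      have e4 : (2 : ℤ) ^ 4 * (2 * m) = 32 * m := by ring
      rw [e4, ← g2] at g1
      exact g1.trans (RSW_pv_mono (by omega) (by omega) (by omega) (by omega) (by omega))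
    have l1 := (RLM true 1 (s + 16 * m) 0 (32 * m))
    have l2 := (RLM true (s + 1) (s + 32 * m) 0 (32 * m))
    have l3 := (RLM true (s + 1) (s + 16 * m) 0 (32 * m))
    have f1 := TFK true _ _ _ _ l1.1 l2.1 l1.2.2.1 l2.2.2.1
    have f2 := TFK true _ _ _ _ (l1.1.inter l2.1) l3.2.1 (l1.2.2.1.inter l2.2.2.1) l3.2.2.2
    have hsub : (Ev fun c => hcross c true 1 (s + 16 * m) 0 (32 * m)) ∩
        (Ev fun c => hcross c true (s + 1) (s + 32 * m) 0 (32 * m)) ∩
        (Ev fun c => vcross c true (s + 1) (s + 16 * m) 0 (32 * m)) ⊆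
        Ev fun c => hcross c true 1 (s + 32 * m) 0 (32 * m) := by
      rintro x ⟨⟨k1, k2⟩, k3⟩
      exact hGL (col x) true 1 (s + 16 * m) (s + 1) (s + 32 * m) 0 (32 * m) (by omega) (by omega)
        (by omega) k1 k2 k3
    have f3 : Pr ((Ev fun c => hcross c true 1 (s + 16 * m) 0 (32 * m)) ∩
        (Ev fun c => hcross c true (s + 1) (s + 32 * m) 0 (32 * m)) ∩
        (Ev fun c => vcross c true (s + 1) (s + 16 * m) 0 (32 * m))) ≤
        ph true 1 (s + 32 * m) 0 (32 * m) := measureReal_mono hsub (measure_ne_top _ _)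
    refine le_trans ?_ (f2.trans f3)
    refine le_trans ?_ (mul_le_mul_of_nonneg_right f1 measureReal_nonneg)
    exact mul_le_mul (mul_le_mul h1 h2 (by norm_num) measureReal_nonneg) h3 ht.le
      (mul_nonneg measureReal_nonneg measureReal_nonneg)

theorem RSW_of (hT : TTL_stmt) (hL : TLG_stmt) : RSW_stmt := by
  obtain ⟨c1, hc1, h1⟩ := hL 14
  obtain ⟨c2, hc2, h2⟩ := hT 6
  refine ⟨min c1 c2, lt_min hc1 hc2, 32, by norm_num, ?_⟩
  have hk : ∀ (k : Bool) (a b d e : ℤ), ph k a b d e = ph true a b d e ∧ pv k a b d e = pv true a b d e := by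
    intro k a b d e
    cases k
    · exact TSX.2 true a b d e
    · exact ⟨rfl, rfl⟩
  intro k a b d e hab hde
  rw [(hk k a b d e).1, (hk k a b d e).2]
  constructor
  · intro hH hW
    refine (min_le_left _ _).trans ?_
    obtain ⟨m, hm1, hm2⟩ : ∃ m : ℤ, 32 * m ≤ e - d ∧ e - d ≤ 32 * m + 31 :=
      ⟨(e - d) / 32, by omega, by omega⟩
    have hm : 1 ≤ m := by omega
    obtain ⟨a', ha1, ha2, ha3⟩ : ∃ a' : ℤ, a' ≤ a ∧ a ≤ a' + 1 ∧ (a' - 1 + d) % 2 = 0 := by
      rcases Int.emod_two_eq_zero_or_one (a - 1 + d) with h | h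
      · exact ⟨a, le_rfl, by omega, h⟩
      · exact ⟨a - 1, by omega, by omega, by omega⟩
    have g1 := h1 m hm
    have e1 : 16 * m * (((14 : ℕ) : ℤ) + 2) = 256 * m := by push_cast; ring
    rw [e1, ← (TSX.1 true 1 (256 * m) 0 (32 * m) (a' - 1) d ha3).1] at g1
    exact g1.trans (RSW_ph_mono (by omega) hab (by omega) (by omega) (by omega))
  · intro hW hH
    refine (min_le_right _ _).trans ?_
    obtain ⟨m, hm1, hm2⟩ : ∃ m : ℤ, 12 * m ≤ b - a ∧ b - a ≤ 12 * m + 11 :=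
      ⟨(b - a) / 12, by omega, by omega⟩
    have hm : 1 ≤ m := by omega
    obtain ⟨a', ha1, ha2, ha3⟩ : ∃ a' : ℤ, a ≤ a' ∧ a' ≤ a + 1 ∧ (a' + d) % 2 = 0 := by
      rcases Int.emod_two_eq_zero_or_one (a + d) with h | h
      · exact ⟨a, le_rfl, by omega, h⟩
      · exact ⟨a + 1, by omega, by omega, by omega⟩
    have g1 := h2 m hm
    have e1 : (2 : ℤ) ^ 6 * (2 * m) = 128 * m := by ring
    rw [e1, ← (TSX.1 true 0 (6 * m + 2) 0 (128 * m) a' d ha3).2] at g1
    exact g1.trans (RSW_pv_mono (by omega) (by omega) (by omega) hde (by omega))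

/-- Russo, Seymour, Welsh for the brick wall. -/
theorem RSW : RSW_stmt := by
  have hR2 : TR2_stmt := TR2 DP.Asm_RC DP.Asm_RR5
  have hR3 : TR3_stmt := TR3 DP.Asm_HX
  have hR4 : TR4_stmt := TR4 DP.RR1 hR2 hR3 DP.Asm_RR5
  have hGP : TGP_stmt := TGP (TGD DP.Asm_RC) hR4
  have hQ : TQ0_stmt := TQ0 (TQD DP.Asm_HX) TQE
  have hT : TTL_stmt := TTL hQ hGP
  exact RSW_of hT (TLG hQ hT (TGL DP.Asm_RC))

end TP
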