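import Pool.Agent.helper61.TP.SpecR
import Pool.Agent.helper64.TP.BAll

/-!
# Project sp, modules TSY, TSX, TFK, RLM: symmetries, FKG, locality
-/

namespace TP

open DP MeasureTheory

theorem TSY_keep (φ : V ≃ V) (hφ : ∀ v, br (φ v) = φ (br v)) (b : V → Bool) :
    (fun v => col b (φ v)) = col (fun v => b (φ v)) := by
  funext v
  unfold col
  rw [hφ v]

theorem TSY_flip (φ : V ≃ V) (hφ : ∀ v, br (φ v) = φ (br v)) (b : V → Bool) :
    (fun v => !(col b (φ v))) = col (fun v => !(b (φ v))) := by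
  funext v
  unfold col
  rw [hφ v]

theorem TSY : TSY_stmt := by
  refine ⟨?_, ?_⟩
  · intro φ p A hp hφ
    have hid : Loc {b | (fun v => !(b v)) ∈ Ev p} A := by
      obtain ⟨Λ, h1, h2⟩ := hp
      refine ⟨Λ, h1, fun b b' hb => h2 _ _ fun v hv => ?_⟩
      rw [hb v hv]
    have e1 := Bflip φ _ A hid
    have e2 := Bflip (Equiv.refl V) _ A hp
    simp only [Equiv.refl_apply] at e2
    rw [e2] at e1
    rw [← e1]
    congr 1
    ext b
    simp only [Ev, Set.mem_ofPred_eq, Bool.not_not]
    rw [TSY_keep φ hφ b]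
  · intro φ p A hp hφ
    rw [← Bflip φ (Ev p) A hp]
    congr 1
    ext b
    simp only [Ev, Set.mem_ofPred_eq]
    rw [TSY_flip φ hφ b]

theorem Sym_rect_finite (a b d e : ℤ) : (rect a b d e).Finite := by
  refine Set.Finite.subset (((Finset.Icc a b) ×ˢ (Finset.Icc d e) : Finset V).finite_toSet) ?_
  intro v hv
  simp only [Finset.coe_product, Finset.coe_Icc, Set.mem_prod, Set.mem_Icc]
  exact ⟨⟨hv.1, hv.2.1⟩, hv.2.2.1, hv.2.2.2⟩

theorem RLM : RLM_stmt := by
  intro k a b d e
  refine ⟨?_, ?_, ?_, ?_⟩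
  · refine Loc.ev (Sym_rect_finite a b d e) fun c c' hc => ?_
    unfold hcross
    refine exists_congr fun u => exists_congr fun v => ?_
    rw [Conn.congr (c := c) (c' := c') (k := k) (R := rect a b d e) hc]
  · refine Loc.ev (Sym_rect_finite a b d e) fun c c' hc => ?_
    unfold vcross
    refine exists_congr fun u => exists_congr fun v => ?_
    rw [Conn.congr (c := c) (c' := c') (k := k) (R := rect a b d e) hc]
  · refine Mon.ev fun c c' hc => ?_
    rintro ⟨u, v, hu, hv, h⟩
    exact ⟨u, v, hu, hv, h.colour_mono fun v _ => hc v⟩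
  · refine Mon.ev fun c c' hc => ?_
    rintro ⟨u, v, hu, hv, h⟩
    exact ⟨u, v, hu, hv, h.colour_mono fun v _ => hc v⟩

theorem TFK : TFK_stmt := by
  intro k F G A B hF hG mF mG
  have hF' : Loc F (A ∪ B) := hF.mono Set.subset_union_left
  have hG' : Loc G (A ∪ B) := hG.mono Set.subset_union_right
  have h := Bfkg (fun _ => 0) k F G (A ∪ B) hF' hG' mF mG
  have hFG : Loc (F ∩ G) (A ∪ B) := hF.inter hG
  rw [Bzero (fun _ => 0) F F (A ∪ B) hF' hF' (fun _ _ => rfl),
    Bzero (fun _ => 0) G G (A ∪ B) hG' hG' (fun _ _ => rfl),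
    Bzero (fun _ => 0) (F ∩ G) (F ∩ G) (A ∪ B) hFG hFG (fun _ _ => rfl)] at h
  simpa only [Set.inter_self] using h

theorem TSX_br (i j : ℤ) (hij : (i + j) % 2 = 0) (v : V) : br (RSX_tr i j v) = RSX_tr i j (br v) := by
  unfold br
  simp only [RSX_tr, Equiv.coe_fn_mk]
  by_cases h : (v.1 + v.2) % 2 = 0
  · rw [if_pos h, if_pos (by omega)]
  · rw [if_neg h, if_neg (by omega)]
    ext
    · dsimp only; omega
    · rfl

theorem TSX_not_h (c : V → Bool) (k : Bool) (a b d e : ℤ) :
    hcross (fun v => !(c v)) k a b d e ↔ hcross c (!k) a b d e := by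
  unfold hcross
  refine exists_congr fun u => exists_congr fun v => ?_
  have e1 : {w | w ∈ rect a b d e ∧ (!(c w)) = k} = {w | w ∈ rect a b d e ∧ c w = !k} := by
    ext w
    simp only [Set.mem_ofPred_eq]
    cases c w <;> cases k <;> simp
  unfold Conn
  rw [e1]

theorem TSX_not_v (c : V → Bool) (k : Bool) (a b d e : ℤ) :
    vcross (fun v => !(c v)) k a b d e ↔ vcross c (!k) a b d e := by
  unfold vcross
  refine exists_congr fun u => exists_congr fun v => ?_
  have e1 : {w | w ∈ rect a b d e ∧ (!(c w)) = k} = {w | w ∈ rect a b d e ∧ c w = !k} := by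
    ext w
    simp only [Set.mem_ofPred_eq]
    cases c w <;> cases k <;> simp
  unfold Conn
  rw [e1]

theorem TSX : TSX_stmt := by
  refine ⟨?_, ?_⟩
  · intro k a b d e i j hij
    constructor
    · rw [ph, ph, ← TSY.1 (RSX_tr i j) (fun c => hcross c k a b d e) _ (RLM k a b d e).1
        (TSX_br i j hij)]
      congr 1
      ext x
      exact (RSX_h_tr (col x) k i j hij a b d e).symm
    · rw [pv, pv, ← TSY.1 (RSX_tr i j) (fun c => vcross c k a b d e) _ (RLM k a b d e).2.1
        (TSX_br i j hij)]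
      congr 1
      ext x
      exact (RSX_v_tr (col x) k i j hij a b d e).symm
  · intro k a b d e
    constructor
    · rw [ph, ph, ← TSY.2 (Equiv.refl V) (fun c => hcross c k a b d e) _ (RLM k a b d e).1
        (fun _ => rfl)]
      congr 1
      ext x
      exact (TSX_not_h (col x) k a b d e).symm
    · rw [pv, pv, ← TSY.2 (Equiv.refl V) (fun c => vcross c k a b d e) _ (RLM k a b d e).2.1
        (fun _ => rfl)]
      congr 1
      ext x
      exact (TSX_not_v (col x) k a b d e).symm

end TP
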