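import Pool.Agent.helper61.TP.Sym
import Pool.Agent.helper14.DP.RR3

/-!
# Project sp, modules TQD, TQE, TQ0: the rhombus
-/

namespace TP

open DP MeasureTheory

/-! ## Duality -/

open Classical in
/-- black outside the rhombus -/
noncomputable def TQD_e (c : V → Bool) (n : ℤ) (v : V) : Bool := if v ∈ rh n then c v else true

theorem TQD (hHX : HX_stmt) : TQD_stmt := by
  classical
  intro c n hn
  have hein : ∀ v ∈ rh n, TQD_e c n v = c v := fun v hv => if_pos hv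
  have heout : ∀ v, v ∉ rh n → TQD_e c n v = true := fun v hv => if_neg hv
  rcases hHX (TQD_e c n) true 0 (3 * n + 1) 0 n (by omega) hn with ⟨u, v, hu, hv, hc⟩ | ⟨u, v, hu, hv, hc⟩
  · left
    set W : Set V := {z | z ∈ rect 0 (3 * n + 1) 0 n ∧ TQD_e c n z = true} with hW
    have hc' : DP.Con W u v := hc
    have hWr : ∀ z ∈ W, 0 ≤ z.1 ∧ z.1 ≤ 3 * n + 1 ∧ 0 ≤ z.2 ∧ z.2 ≤ n := fun z hz => hz.1
    set L : Set V := {z | z.1 < z.2} with hL
    have huR := hWr u (DP.Con.mem_left hc')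
    have hvR := hWr v (DP.Con.mem_right hc')
    -- start
    have hs : ∃ s : V, s.1 ≤ s.2 + 1 ∧ DP.Con (W \ L) s v := by
      have huZ : u ∈ {z : V | z.1 ≤ z.2} := by
        show u.1 ≤ u.2
        omega
      rcases RR3_last hc' huZ with h1 | ⟨a, b, haW, haZ, hab, hbv⟩
      · have h2 : v.1 ≤ v.2 := h1
        omega
      · have haZ' : a.1 ≤ a.2 := haZ
        have hadj := adj_iff.1 hab
        have hmono : W \ {z : V | z.1 ≤ z.2} ⊆ W \ L := by
          rintro z ⟨hz1, hz2⟩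
          refine ⟨hz1, fun hz3 => hz2 ?_⟩
          have : z.1 < z.2 := hz3
          show z.1 ≤ z.2
          omega
        by_cases hae : a.1 = a.2
        · refine ⟨a, by omega, ?_⟩
          have haL : a ∈ W \ L := ⟨haW, fun h1 => by
            have : a.1 < a.2 := h1
            omega⟩
          have h1 := hbv.mono hmono
          exact ((DP.Con.refl haL).step hab (DP.Con.mem_left h1)).trans h1
        · exact ⟨b, by omega, hbv.mono hmono⟩
    obtain ⟨s, hs1, hsv⟩ := hs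
    have hin : ∀ z ∈ W \ L, z.1 ≤ 2 * n + 1 + z.2 → z ∈ rh n ∧ c z = true := by
      rintro z ⟨hz1, hz2⟩ hz3
      have h1 := hWr z hz1
      have h2 : ¬ z.1 < z.2 := hz2
      have h3 : z ∈ rh n := by
        show 0 ≤ z.2 ∧ z.2 ≤ n ∧ z.2 ≤ z.1 ∧ z.1 ≤ 2 * n + 1 + z.2
        omega
      refine ⟨h3, ?_⟩
      rw [← hein z h3]
      exact hz1.2
    have hvZ : v ∈ {z : V | 2 * n + 1 + z.2 ≤ z.1} := by
      show 2 * n + 1 + v.2 ≤ v.1
      omega
    have hsW : s ∈ W \ L := DP.Con.mem_left hsv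
    rcases RR3_last hsv.symm hvZ with h1 | ⟨a, b, haW, haZ, hab, hbs⟩
    · have h2 : 2 * n + 1 + s.2 ≤ s.1 := h1
      refine ⟨s, s, hs1, by omega, DP.Con.refl ?_⟩
      exact hin s hsW (by omega)
    · have haZ' : 2 * n + 1 + a.2 ≤ a.1 := haZ
      have hadj := adj_iff.1 hab
      have hbs' : Conn c true (rh n) b s := by
        refine hbs.mono ?_
        rintro z ⟨hz1, hz2⟩
        have hz2' : ¬ (2 * n + 1 + z.2 ≤ z.1) := hz2
        exact hin z hz1 (by omega)
      have hbZ : ¬ (2 * n + 1 + b.2 ≤ b.1) := (DP.Con.mem_left hbs).2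
      by_cases hae : a.1 = 2 * n + 1 + a.2
      · refine ⟨s, a, hs1, by omega, ?_⟩
        exact (DP.Con.symm hbs').step hab.symm (hin a haW (by omega))
      · exact ⟨s, b, hs1, by omega, DP.Con.symm hbs'⟩
  · right
    refine ⟨u, v, hu, hv, DP.Con.mono ?_ hc⟩
    rintro z ⟨-, hz⟩
    by_cases h1 : z ∈ rh n
    · rw [hein z h1] at hz
      exact ⟨h1, hz⟩
    · rw [heout z h1] at hz
      exact absurd hz (by simp)

/-! ## The exchange -/

theorem TQE_ex_ex (v : V) : ex (ex v) = v := by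
  unfold ex
  ext
  · dsimp only
    omega
  · dsimp only
    omega

theorem TQE_ex_rh (n : ℤ) (v : V) : ex v ∈ rh n ↔ v ∈ rh n := by
  unfold ex rh
  simp only [Set.mem_ofPred_eq]
  omega

/-- The exchange as an equivalence. -/
def TQE_E : V ≃ V where
  toFun := ex
  invFun := ex
  left_inv := TQE_ex_ex
  right_inv := TQE_ex_ex

theorem TQE_br (v : V) : br (ex v) = ex (br v) := by
  unfold br ex
  by_cases h : (v.1 + v.2) % 2 = 0
  · rw [if_pos h, if_pos (by dsimp only; omega)]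
  · rw [if_neg h, if_neg (by dsimp only; omega)]
    ext
    · dsimp only; omega
    · dsimp only; omega

/-- Adjacent or equal bricks, given by their left sites. -/
def TQE_BA (P Q : V) : Prop :=
  (P.2 = Q.2 ∧ (Q.1 = P.1 ∨ Q.1 = P.1 + 2 ∨ P.1 = Q.1 + 2)) ∨
    ((Q.2 = P.2 + 1 ∨ P.2 = Q.2 + 1) ∧ (Q.1 = P.1 + 1 ∨ P.1 = Q.1 + 1))

theorem TQE_BA_of_adj {a b : V} (h : Adj a b) : TQE_BA (br a) (br b) := by
  rw [adj_iff] at h
  unfold TQE_BA br
  split_ifs <;> (try dsimp only) <;> omega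

theorem TQE_BA_ex {P Q : V} (hP : (P.1 + P.2) % 2 = 0) (hQ : (Q.1 + Q.2) % 2 = 0)
    (h : TQE_BA P Q) : TQE_BA (ex P) (ex Q) := by
  unfold TQE_BA ex at *
  dsimp only
  omega

theorem TQE_br_succ {P : V} (hP : (P.1 + P.2) % 2 = 0) : br (P.1 + 1, P.2) = P := by
  unfold br
  rw [if_neg (by dsimp only; omega)]
  ext
  · dsimp only; omega
  · rfl

theorem TQE_con {p q : V} (h : TQE_BA (br p) (br q)) :
    DP.Con {z | br z = br p ∨ br z = br q} p q := by
  set S : Set V := {z | br z = br p ∨ br z = br q} with hS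
  have hP := br_even p
  have hQ := br_even q
  have c1 : DP.Con S p (br p) := by
    have hp : p ∈ S := Or.inl rfl
    by_cases he : p = br p
    · rw [← he]
      exact DP.Con.refl hp
    · exact (DP.Con.refl hp).step (br_adj (br_br p).symm he) (Or.inl (br_br p))
  have c2 : DP.Con S q (br q) := by
    have hq : q ∈ S := Or.inr rfl
    by_cases he : q = br q
    · rw [← he]
      exact DP.Con.refl hq
    · exact (DP.Con.refl hq).step (br_adj (br_br q).symm he) (Or.inr (br_br q))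
  refine c1.trans (DP.Con.trans ?_ c2.symm)
  have hPS : br p ∈ S := Or.inl (br_br p)
  have hQS : br q ∈ S := Or.inr (br_br q)
  set P := br p with hPdef
  set Q := br q with hQdef
  rcases h with ⟨h1, h2 | h2 | h2⟩ | ⟨h1, h2⟩
  · have e : P = Q := by
      ext
      · exact h2.symm
      · exact h1
    rw [← e]
    exact DP.Con.refl hPS
  · have hm : ((P.1 + 1, P.2) : V) ∈ S := Or.inl (TQE_br_succ hP)
    refine ((DP.Con.refl hPS).step (v := P) ?_ hm).step ?_ hQS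
    · rw [adj_iff]
      refine ⟨⟨?_, ?_, ?_, ?_⟩, ?_, ?_⟩ <;> dsimp only <;> omega
    · rw [adj_iff]
      refine ⟨⟨?_, ?_, ?_, ?_⟩, ?_, ?_⟩ <;> dsimp only <;> omega
  · have hm : ((Q.1 + 1, Q.2) : V) ∈ S := Or.inr (TQE_br_succ hQ)
    refine ((DP.Con.refl hPS).step (v := P) ?_ hm).step ?_ hQS
    · rw [adj_iff]
      refine ⟨⟨?_, ?_, ?_, ?_⟩, ?_, ?_⟩ <;> dsimp only <;> omega
    · rw [adj_iff]
      refine ⟨⟨?_, ?_, ?_, ?_⟩, ?_, ?_⟩ <;> dsimp only <;> omega
  · refine (DP.Con.refl hPS).step ?_ hQS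
    rw [adj_iff]
    refine ⟨⟨?_, ?_, ?_, ?_⟩, ?_, ?_⟩ <;> omega

theorem TQE_tr {W : Set V} (hW : ∀ v w, v ∈ W → br w = br v → w ∈ W) {u v : V}
    (h : DP.Con {z | ex z ∈ W} u v) : DP.Con W (ex u) (ex v) := by
  have hu : u ∈ {z | ex z ∈ W} := DP.Con.mem_left h
  have hu' : ex u ∈ W := hu
  refine DP.Con.induct' h (fun z => DP.Con W (ex u) (ex z)) (DP.Con.refl hu') ?_
  intro a b ha hb hab hP
  refine hP.trans ((TQE_con ?_).mono ?_)
  · rw [TQE_br, TQE_br]
    exact TQE_BA_ex (br_even a) (br_even b) (TQE_BA_of_adj hab)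
  · rintro z (hz | hz)
    · exact hW _ _ ha hz
    · exact hW _ _ hb hz

theorem TQE_rh_br {n : ℤ} {v w : V} (hv : v ∈ rh n) (h : br w = br v) : w ∈ rh n := by
  have e1 : (br w).1 = (br v).1 := by rw [h]
  have e2 : (br w).2 = (br v).2 := by rw [h]
  unfold br at e1 e2
  unfold rh at hv ⊢
  simp only [Set.mem_ofPred_eq] at hv ⊢
  split_ifs at e1 e2 <;> (try dsimp only at e1 e2) <;> omega

theorem TQE : TQE_stmt := by
  intro b k n
  set W : Set V := {w | w ∈ rh n ∧ col b w = k} with hW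
  have hWb : ∀ v w, v ∈ W → br w = br v → w ∈ W := by
    rintro v w ⟨h1, h2⟩ h
    refine ⟨TQE_rh_br h1 h, ?_⟩
    unfold col at h2 ⊢
    rw [h]
    exact h2
  have hW' : {w | w ∈ rh n ∧ col b (ex w) = k} = {w | ex w ∈ W} := by
    ext w
    show (w ∈ rh n ∧ col b (ex w) = k) ↔ (ex w ∈ rh n ∧ col b (ex w) = k)
    rw [TQE_ex_rh]
  have hWb' : ∀ v w, v ∈ {w | ex w ∈ W} → br w = br v → w ∈ {w | ex w ∈ W} := by
    intro v w hv h
    refine hWb (ex v) (ex w) hv ?_
    rw [TQE_br, TQE_br, h]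
  constructor
  · rintro ⟨u, v, hu, hv, h⟩
    have h1 : DP.Con {w | ex w ∈ W} u v := by
      rw [← hW']
      exact h
    have h2 := TQE_tr hWb h1
    refine ⟨ex u, ex v, ?_, ?_, h2⟩
    · unfold ex
      dsimp only
      omega
    · unfold ex
      dsimp only
      omega
  · rintro ⟨u, v, hu, hv, h⟩
    have h0 : DP.Con {z | ex z ∈ {w | ex w ∈ W}} u v := by
      have e : {z | ex z ∈ {w | ex w ∈ W}} = W := by
        ext z
        show ex (ex z) ∈ W ↔ z ∈ W
        rw [TQE_ex_ex]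
      rw [e]
      exact h
    have h2 := TQE_tr hWb' h0
    rw [← hW'] at h2
    have huR : 0 ≤ u.2 ∧ u.2 ≤ n ∧ u.2 ≤ u.1 ∧ u.1 ≤ 2 * n + 1 + u.2 := (DP.Con.mem_left h).1
    have hvR : 0 ≤ v.2 ∧ v.2 ≤ n ∧ v.2 ≤ v.1 ∧ v.1 ≤ 2 * n + 1 + v.2 := (DP.Con.mem_right h).1
    refine ⟨ex u, ex v, ?_, ?_, h2⟩
    · unfold ex
      dsimp only
      omega
    · unfold ex
      dsimp only
      omega

/-! ## Base -/

theorem TQ0_finite (n : ℤ) : (rh n).Finite := by
  refine (Sym_rect_finite 0 (3 * n + 1) 0 n).subset ?_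
  rintro v ⟨h1, h2, h3, h4⟩
  show 0 ≤ v.1 ∧ v.1 ≤ 3 * n + 1 ∧ 0 ≤ v.2 ∧ v.2 ≤ n
  omega

theorem TQ0 (hD : TQD_stmt) (hE : TQE_stmt) : TQ0_stmt := by
  intro n hn
  have : IsProbabilityMeasure P1 := by unfold P1; infer_instance
  have lV : ∀ k, Loc (Ev fun c => VR c k n) (rh n) := by
    intro k
    refine Loc.ev (TQ0_finite n) fun c c' hc => ?_
    unfold VR
    refine exists_congr fun u => exists_congr fun y => ?_
    rw [Conn.congr (c := c) (c' := c') (k := k) (R := rh n) hc]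
  -- exchange
  have e1 : ∀ k, Pr (Ev fun c => HR c k n) = Pr (Ev fun c => VR c k n) := by
    intro k
    rw [← TSY.1 TQE_E (fun c => VR c k n) _ (lV k) TQE_br]
    congr 1
    ext b
    exact (hE b k n).symm
  -- flip
  have e2 : Pr (Ev fun c => VR c false n) = Pr (Ev fun c => VR c true n) := by
    rw [← TSY.2 (Equiv.refl V) (fun c => VR c true n) _ (lV true) (fun _ => rfl)]
    congr 1
    ext b
    show VR (col b) false n ↔ VR (fun v => !(col b v)) true n
    unfold VR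
    refine exists_congr fun u => exists_congr fun v => ?_
    have e1 : {w | w ∈ rh n ∧ (!(col b w)) = true} = {w | w ∈ rh n ∧ col b w = false} := by
      ext w
      simp only [Set.mem_ofPred_eq]
      cases col b w <;> simp
    unfold Conn
    rw [e1]
  have h1 : Pr Set.univ ≤ Pr (Ev fun c => HR c true n) + Pr (Ev fun c => VR c false n) := by
    unfold Pr
    refine (measureReal_mono ?_ (measure_ne_top _ _)).trans (measureReal_union_le _ _)
    intro b _
    exact hD (col b) n (by omega)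
  have h2 : Pr Set.univ = 1 := by
    unfold Pr
    simp
  rw [h2, e1, e2] at h1
  have h3 : 1 / 2 ≤ Pr (Ev fun c => VR c true n) := by linarith
  have h4 : 1 / 2 ≤ Pr (Ev fun c => HR c true n) := by
    rw [e1]
    exact h3
  constructor
  · refine h4.trans ?_
    unfold ph Pr
    refine measureReal_mono ?_ (measure_ne_top _ _)
    rintro b ⟨u, v, hu, hv, h⟩
    have huR : 0 ≤ u.2 ∧ u.2 ≤ n ∧ u.2 ≤ u.1 ∧ u.1 ≤ 2 * n + 1 + u.2 := (DP.Con.mem_left h).1
    have hvR : 0 ≤ v.2 ∧ v.2 ≤ n ∧ v.2 ≤ v.1 ∧ v.1 ≤ 2 * n + 1 + v.2 := (DP.Con.mem_right h).1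
    obtain ⟨p, q, hp, hq, hpq⟩ := RHM_mid (fun z => z.1)
      (fun a b hab => by rw [adj_iff] at hab; omega) (n + 1) (2 * n) (by omega) h (by omega)
      (by omega)
    refine ⟨p, q, hp, hq, DP.Con.mono ?_ hpq⟩
    rintro z ⟨⟨⟨g1, g2, g3, g4⟩, hz⟩, g5, g6⟩
    exact ⟨⟨g5, g6, g1, g2⟩, hz⟩
  · refine h3.trans ?_
    unfold pv Pr
    refine measureReal_mono ?_ (measure_ne_top _ _)
    rintro b ⟨u, v, hu, hv, h⟩
    refine ⟨u, v, hu, hv, DP.Con.mono ?_ h⟩
    rintro z ⟨⟨g1, g2, g3, g4⟩, hz⟩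
    refine ⟨?_, hz⟩
    show 0 ≤ z.1 ∧ z.1 ≤ 3 * n + 1 ∧ 0 ≤ z.2 ∧ z.2 ≤ n
    omega

end TP
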