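import Pool.Agent.helper90.TP.Defs

set_option autoImplicit false

namespace Pool.Agent.helper90.TP

/-- rank relation for fronts -/
inductive FR_R (G : Set (List ℕ)) : List ℕ → Prop
  | base (u : List ℕ) (h : u ∈ G) : FR_R G u
  | step (u : List ℕ) (c : ℕ) (h : ∀ j, c ≤ j → FR_R G (u ++ [j])) : FR_R G u

/-- the conclusion for one node with all choices made -/
def FR_Good (G : Set (List ℕ)) (u : List ℕ) (A : Set (List ℕ)) (K : (ℕ → ℕ) → ℕ) (c : List ℕ → ℕ) : Prop :=
  A ⊆ G ∧ (∀ t ∈ A, u <+: t) ∧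
    (∀ z : ℕ → ℕ, {t ∈ A | ∀ i (h : i < t.length), i < K z → t[i] ≤ z i}.Finite) ∧
    ∀ z : ℕ → ℕ, pre z u.length = u →
      (∀ k, u.length ≤ k → c (pre z k) ≤ z k) → ∃ t ∈ A, pre z t.length = t

theorem FR_getElem {u t : List ℕ} {j : ℕ} (h : (u ++ [j]) <+: t) :
    ∃ h' : u.length < t.length, t[u.length] = j := by
  obtain ⟨w, rfl⟩ := h
  refine ⟨by simp, ?_⟩
  simp

theorem FR_ind {G : Set (List ℕ)} {u : List ℕ} (h : FR_R G u) : ∃ A K c, FR_Good G u A K c := by
  induction h with
  | base u h =>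
    refine ⟨{u}, fun _ => 0, fun _ => 0, ?_, ?_, ?_, ?_⟩
    · rintro t rfl; exact h
    · rintro t rfl; exact List.prefix_rfl
    · intro z
      exact (Set.finite_singleton u).subset (fun t ht => ht.1)
    · intro z hz _
      exact ⟨u, rfl, hz⟩
  | step u c0 _ ih =>
    choose! A K c hG using ih
    refine ⟨⋃ j ∈ Set.Ici c0, A j, fun z => max (u.length + 1) ((Finset.range (z u.length + 1)).sup (fun j => K j z)),
      fun v => if h : u.length < v.length then c v[u.length] v else c0, ?_, ?_, ?_, ?_⟩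
    · intro t ht
      simp only [Set.mem_iUnion] at ht
      obtain ⟨j, hj, ht⟩ := ht
      exact (hG j hj).1 ht
    · intro t ht
      simp only [Set.mem_iUnion] at ht
      obtain ⟨j, hj, ht⟩ := ht
      exact (List.prefix_append u [j]).trans ((hG j hj).2.1 t ht)
    · intro z
      have hfin : (⋃ j ∈ {j | c0 ≤ j ∧ j < z u.length + 1},
          {t ∈ A j | ∀ i (h : i < t.length), i < K j z → t[i] ≤ z i}).Finite := by
        apply Set.Finite.biUnion
        · exact (Set.finite_lt_nat (z u.length + 1)).subset (fun j hj => hj.2)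
        · intro j hj
          exact (hG j hj.1).2.2.1 z
      apply hfin.subset
      rintro t ⟨ht, ht2⟩
      simp only [Set.mem_iUnion] at ht
      obtain ⟨j, hj, ht⟩ := ht
      obtain ⟨h1, h2⟩ := FR_getElem ((hG j hj).2.1 t ht)
      have h3 := ht2 u.length h1 (lt_of_lt_of_le (Nat.lt_succ_self _) (le_max_left _ _))
      rw [h2] at h3
      simp only [Set.mem_iUnion]
      refine ⟨j, ⟨hj, by omega⟩, ht, ?_⟩
      intro i hi hiK
      apply ht2 i hi
      refine lt_of_lt_of_le hiK (le_trans ?_ (le_max_right _ _))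
      exact Finset.le_sup (f := fun j => K j z) (Finset.mem_range.mpr (by omega))
    · intro z hz hc
      have h0 := hc u.length le_rfl
      simp only [length_pre, lt_irrefl, dite_false] at h0
      obtain ⟨t, ht, hzt⟩ := (hG (z u.length) h0).2.2.2 z (by
          rw [List.length_append, List.length_singleton, pre_succ, hz]) (by
        intro k hk
        rw [List.length_append, List.length_singleton] at hk
        have h1 := hc k (by omega)
        have h2 : u.length < (pre z k).length := by rw [length_pre]; omega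
        simp only [h2, dite_true, getElem_pre] at h1
        exact h1)
      exact ⟨t, by
        simp only [Set.mem_iUnion]
        exact ⟨z u.length, h0, ht⟩, hzt⟩

theorem front (G : Set (List ℕ)) (s : List ℕ)
    (H : ∀ P : Set (List ℕ), s ∈ P → (∀ u ∈ P, s <+: u) →
      (∀ u ∈ P, ∀ m : ℕ, ∃ j, m ≤ j ∧ u ++ [j] ∈ P) → ∃ u ∈ P, u ∈ G) :
    ∃ A : Set (List ℕ), A ⊆ G ∧ (∀ t ∈ A, s <+: t) ∧
      (∀ z : ℕ → ℕ, ∃ K : ℕ, {t ∈ A | ∀ i (h : i < t.length), i < K → t[i] ≤ z i}.Finite) ∧
      ∃ c : List ℕ → ℕ, ∀ z : ℕ → ℕ, pre z s.length = s →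
        (∀ k, s.length ≤ k → c (pre z k) ≤ z k) → ∃ t ∈ A, pre z t.length = t := by
  have hR : FR_R G s := by
    by_contra hcon
    obtain ⟨u, hu, huG⟩ := H {u | s <+: u ∧ ¬ FR_R G u} ⟨List.prefix_rfl, hcon⟩ (fun u hu => hu.1) (by
      rintro u ⟨hu1, hu2⟩ m
      by_contra hno
      push Not at hno
      apply hu2
      apply FR_R.step u m
      intro j hj
      by_contra hj2
      exact hno j hj ⟨hu1.trans (List.prefix_append _ _), hj2⟩)
    exact hu.2 (FR_R.base u huG)
  obtain ⟨A, K, c, h1, h2, h3, h4⟩ := FR_ind hR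
  exact ⟨A, h1, h2, fun z => ⟨K z, h3 z⟩, c, h4⟩

end Pool.Agent.helper90.TP
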