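import Pool.Agent.helper61.TP.FR

set_option autoImplicit false

namespace Pool.Agent.helper90.TP

variable {I : Type} [LinearOrder I]

theorem node_data {x : I → ℕ → ℕ} (hx : IsScale x) (m : I → ℕ → ℕ) (s : List ℕ) :
    ∃ (Q : Set (I × ℕ)) (c : List ℕ → ℕ), Q.Countable ∧
      (∀ q ∈ Q, pre (x q.1) s.length = s ∧ m q.1 s.length ≤ q.2) ∧
      (∀ z : ℕ → ℕ, ∃ K : ℕ, {q ∈ Q | ∀ i < K, x q.1 i ≤ z i}.Finite) ∧
      ∀ z : ℕ → ℕ, pre z s.length = s → (∀ k, s.length ≤ k → c (pre z k) ≤ z k) →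
        ∃ q ∈ Q, (∀ i < q.2, z i = x q.1 i) ∧ ∀ i, x q.1 i ≤ z i := by
  have hne : Nonempty I := by
    obtain ⟨a, -⟩ := hx.laver Set.univ s trivial (fun u _ m => ⟨m, le_rfl, trivial⟩)
    exact ⟨a⟩
  obtain ⟨A, hAG, hAs, hAK, c0, hc0⟩ := front
    {t | s <+: t ∧ ∃ a, pre (x a) t.length = t ∧ m a s.length ≤ t.length} s (by
      intro P hsP _ hP
      obtain ⟨a, ha1, ha2⟩ := hx.laver P s hsP hP
      refine ⟨pre (x a) (max s.length (m a s.length)), ha2 _ (le_max_left _ _), ?_, a, ?_, ?_⟩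
      · conv_lhs => rw [← ha1]
        exact pre_prefix _ (le_max_left _ _)
      · rw [length_pre]
      · rw [length_pre]; exact le_max_right _ _)
  have hrep : ∀ t ∈ A, ∃ a, pre (x a) t.length = t ∧ m a s.length ≤ t.length := fun t ht => (hAG ht).2
  choose! rep hrep1 hrep2 using hrep
  refine ⟨(fun t => (rep t, t.length)) '' A,
    fun u => max (c0 u) (u.inits.toFinset.sup (fun t => x (rep t) u.length)), ?_, ?_, ?_, ?_⟩
  · exact (Set.to_countable A).image _
  · rintro q ⟨t, ht, rfl⟩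
    refine ⟨?_, hrep2 t ht⟩
    obtain ⟨w, hw⟩ := hAs t ht
    have h1 := (pre_eq_iff (x (rep t)) t).mp (hrep1 t ht)
    rw [pre_eq_iff]
    intro i hi
    have h2 := h1 i (by rw [← hw, List.length_append]; omega)
    simp only at h2 ⊢
    rw [h2]
    simp only [← hw]
    rw [List.getElem_append_left hi]
  · intro z
    obtain ⟨K, hK⟩ := hAK z
    refine ⟨K, (hK.image (fun t => (rep t, t.length))).subset ?_⟩
    rintro q ⟨⟨t, ht, rfl⟩, hq⟩
    refine ⟨t, ⟨ht, ?_⟩, rfl⟩
    intro i hi hiK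
    rw [← (pre_eq_iff (x (rep t)) t).mp (hrep1 t ht) i hi]
    exact hq i hiK
  · intro z hz hc
    obtain ⟨t, ht, hzt⟩ := hc0 z hz (fun k hk => (le_max_left _ _).trans (hc k hk))
    refine ⟨(rep t, t.length), ⟨t, ht, rfl⟩, ?_, ?_⟩
    · intro i hi
      simp only at hi ⊢
      rw [(pre_eq_iff z t).mp hzt i hi, (pre_eq_iff (x (rep t)) t).mp (hrep1 t ht) i hi]
    · intro i
      simp only
      by_cases hi : i < t.length
      · rw [(pre_eq_iff z t).mp hzt i hi, (pre_eq_iff (x (rep t)) t).mp (hrep1 t ht) i hi]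
      · push Not at hi
        have hst : s.length ≤ t.length := (hAs t ht).length_le
        have h1 := (le_max_right _ _).trans (hc i (hst.trans hi))
        have h2 : t <+: pre z i := by
          conv_lhs => rw [← hzt]
          exact pre_prefix z hi
        have h3 : x (rep t) (pre z i).length ≤ (pre z i).inits.toFinset.sup (fun t => x (rep t) (pre z i).length) :=
          Finset.le_sup (f := fun t => x (rep t) (pre z i).length) (by
            rw [List.mem_toFinset, List.mem_inits]; exact h2)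
        rw [length_pre] at h3 h1
        exact h3.trans h1

end Pool.Agent.helper90.TP
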