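import Pool.Agent.helper61.TP.Sym
import Pool.Agent.helper1.DP.RR4

/-!
# Project sp, module TR4: the probabilistic step
-/

namespace TP

open DP MeasureTheory

/-- The sites of the rectangle whose brick meets `X`. -/
def TR4_cl (w h : ℤ) (X : Set V) : Set V := {v | v ∈ rect 0 w 0 h ∧ ∃ v' ∈ X, br v' = br v}

/-- the exploration reveals `X` and finds a vertical crossing -/
def TR4_V (w h : ℤ) (X : Set V) : Set (V → Bool) :=
  Ev fun c => RV c w h = X ∧ ∃ u t : V, u.2 = 0 ∧ t.2 = h ∧ Conn c true X u t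

theorem TR4_V_loc (h1 : RR1_stmt) {w h : ℤ} (hw : 0 ≤ w) (hh : 0 ≤ h) (X : Finset V) :
    Loc (TR4_V w h X) (X : Set V) := by
  refine Loc.ev X.finite_toSet ?_
  have key : ∀ c c' : V → Bool, (∀ v ∈ (X : Set V), c v = c' v) →
      (RV c w h = X ∧ ∃ u t : V, u.2 = 0 ∧ t.2 = h ∧ Conn c true X u t) →
      (RV c' w h = X ∧ ∃ u t : V, u.2 = 0 ∧ t.2 = h ∧ Conn c' true X u t) := by
    rintro c c' hc ⟨hR, u, t, hu, ht, hut⟩
    refine ⟨?_, u, t, hu, ht, (Conn.congr hc).1 hut⟩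
    rw [h1 c c' w h hw hh (by rw [hR]; exact hc), hR]
  intro c c' hc
  exact ⟨key c c' hc, key c' c fun v hv => (hc v hv).symm⟩

theorem TR4_F_loc (Y : Set V) (w h : ℤ) :
    Loc (Ev fun c => FB c Y w h) (rect 0 w 0 (2 * h) ∩ Yᶜ) := by
  refine Loc.ev ((Sym_rect_finite _ _ _ _).inter_of_left _) ?_
  intro c c' hc
  unfold FB
  have : ∀ z y : V, Conn c true {z | z ∈ rect 0 w 0 (2 * h) ∧ z ∉ Y ∧ rf h z ∉ Y} z y ↔
      Conn c' true {z | z ∈ rect 0 w 0 (2 * h) ∧ z ∉ Y ∧ rf h z ∉ Y} z y := by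
    intro z y
    exact Conn.congr fun v hv => hc v ⟨hv.1, hv.2.1⟩
  simp only [this]

/-- reflection as an equivalence -/
def TR4_rfE (h : ℤ) : V ≃ V where
  toFun := rf h
  invFun := rf h
  left_inv v := by simp [rf]
  right_inv v := by simp [rf]

theorem TR4_rfE_br (h : ℤ) (v : V) : br (TR4_rfE h v) = TR4_rfE h (br v) := by
  show br (rf h v) = rf h (br v)
  unfold br rf
  by_cases hv : (v.1 + v.2) % 2 = 0
  · rw [if_pos hv, if_pos (by dsimp only; omega)]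
  · rw [if_neg hv, if_neg (by dsimp only; omega)]

theorem TR4_half (h3 : TR3_stmt) (Y : Set V) {w h : ℤ} (hw : 0 ≤ w) (hh : 1 ≤ h)
    (hpar : (w + h) % 2 = 0) (hY : Y ⊆ rect 0 w 0 h) (hY0 : ∀ y : ℤ, 0 ≤ y → y ≤ h → (0, y) ∈ Y) :
    1 / 2 ≤ Pr (Ev fun c' => FB c' Y w h) := by
  haveI : IsProbabilityMeasure P1 := by unfold P1; infer_instance
  have hsub : (Set.univ : Set (V → Bool)) ⊆
      (Ev fun c' => FB c' Y w h) ∪ (Ev fun c' => FB (fun v => !(c' (rf h v))) Y w h) := by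
    intro b' _
    exact h3 (col b') Y w h hw hh hpar hY hY0
  have hsym : Pr (Ev fun c' => FB (fun v => !(c' (rf h v))) Y w h) = Pr (Ev fun c' => FB c' Y w h) :=
    TSY.2 (TR4_rfE h) (fun c' => FB c' Y w h) _ (TR4_F_loc Y w h) (TR4_rfE_br h)
  have h4 : Pr Set.univ ≤
      Pr (Ev fun c' => FB c' Y w h) + Pr (Ev fun c' => FB (fun v => !(c' (rf h v))) Y w h) := by
    unfold Pr
    exact (measureReal_mono hsub (measure_ne_top _ _)).trans (measureReal_union_le _ _)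
  have h5 : Pr Set.univ = 1 := by
    unfold Pr
    simp
  rw [hsym, h5] at h4
  linarith

/-- For the brick closure of the revealed set. -/
theorem TR4_cl_FB {b : V → Bool} {w h : ℤ} (hh : 1 ≤ h)
    (hF : FB (col b) (TR4_cl w h (RV (col b) w h)) w h) : FB (col b) (RV (col b) w h) w h := by
  set X := RV (col b) w h with hX
  set Y := TR4_cl w h X with hY
  have hXY : X ⊆ Y := fun v hv => ⟨hv.1, v, hv, rfl⟩
  have hXR : ∀ z ∈ X, 0 ≤ z.1 ∧ z.1 ≤ w ∧ 0 ≤ z.2 ∧ z.2 ≤ h := fun z hz => hz.1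
  -- new sites are black and next to `X`
  have hnew : ∀ v ∈ Y, v ∉ X → col b v = true ∧ (∃ v' ∈ X, Adj v' v) ∧ rf h v ∉ X := by
    rintro v ⟨hvR, v', hv', hbr⟩ hvX
    have hne : v' ≠ v := fun h1 => hvX (h1 ▸ hv')
    have hadj : Adj v' v := br_adj hbr hne
    have hcol : col b v' = col b v := by
      unfold col
      rw [hbr]
    have hv'W : v' ∉ WL (col b) w h := by
      intro h1
      exact hvX ⟨hvR, Or.inr (Or.inr ⟨v', h1, hadj⟩)⟩
    have hblack : col b v' = true := by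
      by_contra hcon
      have hfalse : col b v' = false := by simpa using hcon
      apply hv'W
      rcases hv'.2 with h0 | h0 | ⟨z, hz, hzv⟩
      · exact ⟨v', h0, DP.Con.refl ⟨hv'.1, hfalse⟩⟩
      · exact h0
      · obtain ⟨p, hp, hpz⟩ := hz
        exact ⟨p, hp, DP.Con.step hpz hzv ⟨hv'.1, hfalse⟩⟩
    refine ⟨hcol ▸ hblack, ⟨v', hv', hadj⟩, ?_⟩
    intro h1
    have h2 := hXR _ h1
    have hvR' : 0 ≤ v.1 ∧ v.1 ≤ w ∧ 0 ≤ v.2 ∧ v.2 ≤ h := hvR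
    unfold rf at h1 h2
    dsimp only at h2
    have h3 : (v.1, 2 * h - v.2) = v := by
      ext
      · rfl
      · dsimp only; omega
    rw [h3] at h1
    exact hvX h1
  obtain ⟨v, hvY, hv⟩ := hF
  have hvR : 0 ≤ v.1 ∧ v.1 ≤ w ∧ 0 ≤ v.2 ∧ v.2 ≤ h := hvY.1
  have hvR' : v ∈ rect 0 w 0 (2 * h) := ⟨hvR.1, hvR.2.1, hvR.2.2.1, by omega⟩
  have hmono : ∀ x, x ∈ {z | z ∈ {z | z ∈ rect 0 w 0 (2 * h) ∧ z ∉ Y ∧ rf h z ∉ Y} ∧ col b z = true} →
      x ∈ {z | z ∈ {z | z ∈ rect 0 w 0 (2 * h) ∧ z ∉ X ∧ rf h z ∉ X} ∧ col b z = true} := by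
    rintro x ⟨⟨h1, h2, h3⟩, h4⟩
    exact ⟨⟨h1, fun g => h2 (hXY g), fun g => h3 (hXY g)⟩, h4⟩
  by_cases hvX : v ∈ X
  · refine ⟨v, hvX, ?_⟩
    rcases hv with hv | ⟨z, y, hvz, hy, hzy⟩
    · exact Or.inl hv
    · exact Or.inr ⟨z, y, hvz, hy, DP.Con.mono hmono hzy⟩
  · obtain ⟨hc, ⟨v', hv', hadj⟩, hrf⟩ := hnew v hvY hvX
    refine ⟨v', hv', Or.inr ?_⟩
    have hvin : v ∈ {z | z ∈ {z | z ∈ rect 0 w 0 (2 * h) ∧ z ∉ X ∧ rf h z ∉ X} ∧ col b z = true} :=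
      ⟨⟨hvR', hvX, hrf⟩, hc⟩
    rcases hv with hv | ⟨z, y, hvz, hy, hzy⟩
    · exact ⟨v, v, hadj, hv, DP.Con.refl hvin⟩
    · refine ⟨v, y, hadj, hy, ?_⟩
      have h1 := DP.Con.mono hmono hzy
      exact (DP.Con.step (DP.Con.refl hvin) hvz (DP.Con.mem_left h1)).trans h1

theorem TR4 (h1 : RR1_stmt) (h2 : TR2_stmt) (h3 : TR3_stmt) (h5 : RR5_stmt) : TR4_stmt := by
  classical
  haveI : IsProbabilityMeasure P1 := by unfold P1; infer_instance
  intro w h hw hh hpar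
  have hh0 : 0 ≤ h := by omega
  set Λ : Finset V := (Sym_rect_finite 0 w 0 h).toFinset with hΛ
  set F : Finset V → Set (V → Bool) := fun X => Ev fun c => FB c (TR4_cl w h (X : Set V)) w h with hF
  set W : Finset V → Set (V → Bool) := fun X => TR4_V w h X with hW
  have hWloc : ∀ X, Loc (W X) (X : Set V) := fun X => TR4_V_loc h1 hw hh0 X
  have hFloc : ∀ X, Loc (F X) (rect 0 w 0 (2 * h) ∩ (TR4_cl w h (X : Set V))ᶜ) :=
    fun X => TR4_F_loc _ w h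
  -- independence
  have hind : ∀ X : Finset V, (X : Set V) ⊆ rect 0 w 0 h → Pr (W X ∩ F X) = Pr (W X) * Pr (F X) := by
    intro X hXr
    have hd : BDis (X : Set V) (rect 0 w 0 (2 * h) ∩ (TR4_cl w h (X : Set V))ᶜ) := by
      rintro v hv z ⟨hz, hz'⟩ hbr
      apply hz'
      refine ⟨?_, v, hv, hbr⟩
      have h1 := hXr hv
      have e1 := br_snd v
      have e2 := br_snd z
      rw [hbr] at e1
      have h2 : 0 ≤ v.1 ∧ v.1 ≤ w ∧ 0 ≤ v.2 ∧ v.2 ≤ h := h1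
      have h3 : 0 ≤ z.1 ∧ z.1 ≤ w ∧ 0 ≤ z.2 ∧ z.2 ≤ 2 * h := hz
      show 0 ≤ z.1 ∧ z.1 ≤ w ∧ 0 ≤ z.2 ∧ z.2 ≤ h
      omega
    have e := Bindep (fun _ => 0) (W X) Set.univ (F X) Set.univ _ _ hd (hWloc X) (Loc.univ _)
      (hFloc X) (Loc.univ _)
    rw [Set.univ_inter, Bmarg _ _ _ ((hWloc X).inter (hFloc X)), Bmarg _ _ _ (hWloc X),
      Bmarg _ _ _ (hFloc X)] at e
    exact e
  -- lower bound
  have hlow : ∀ X ∈ Λ.powerset, Pr (W X) * (1 / 2) ≤ Pr (W X ∩ F X) := by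
    intro X hX
    have hXr : (X : Set V) ⊆ rect 0 w 0 h := by
      intro v hv
      have := Finset.mem_powerset.1 hX hv
      rwa [Set.Finite.mem_toFinset] at this
    rw [hind X hXr]
    by_cases hne : (W X).Nonempty
    · obtain ⟨c0, hc0⟩ := hne
      have hR : RV (col c0) w h = X := hc0.1
      refine mul_le_mul_of_nonneg_left (TR4_half h3 _ hw hh hpar (fun v hv => hv.1) ?_)
        measureReal_nonneg
      intro y hy0 hyh
      have hy : ((0 : ℤ), y) ∈ rect 0 w 0 h := ⟨le_rfl, hw, hy0, hyh⟩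
      refine ⟨hy, (0, y), ?_, rfl⟩
      rw [← hR]
      exact ⟨hy, Or.inl rfl⟩
    · rw [Set.not_nonempty_iff_eq_empty] at hne
      rw [hne]
      simp [Pr]
  -- cover
  have hcov : (Ev fun c => vcross c true 0 w 0 h) ⊆ ⋃ X ∈ Λ.powerset, W X := by
    intro b' hb'
    obtain ⟨u, t, hu, ht, hut⟩ := h5 (col b') w h hw hh0 hb'
    have hfin : (RV (col b') w h).Finite :=
      (Sym_rect_finite 0 w 0 h).subset (RR4_RV_subset _ _ _)
    rw [Set.mem_iUnion₂]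
    refine ⟨hfin.toFinset, ?_, ?_⟩
    · rw [Finset.mem_powerset]
      intro v hv
      rw [Set.Finite.mem_toFinset] at hv ⊢
      exact RR4_RV_subset _ _ _ hv
    · refine ⟨by simp, u, t, hu, ht, ?_⟩
      simpa using hut
  have hpv : pv true 0 w 0 h ≤ ∑ X ∈ Λ.powerset, Pr (W X) := by
    unfold pv Pr
    exact (measureReal_mono hcov (measure_ne_top _ _)).trans
      (measureReal_biUnion_finset_le _ _)
  have hdisj : ∀ X ∈ Λ.powerset, ∀ Y ∈ Λ.powerset, X ≠ Y → Disjoint (W X ∩ F X) (W Y ∩ F Y) := by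
    intro X _ Y _ hXY
    rw [Set.disjoint_left]
    intro c hc hc'
    apply hXY
    have e1 : RV (col c) w h = X := hc.1.1
    have e2 : RV (col c) w h = Y := hc'.1.1
    exact Finset.coe_injective (e1.symm.trans e2)
  have hsum : ∑ X ∈ Λ.powerset, Pr (W X ∩ F X) = Pr (⋃ X ∈ Λ.powerset, (W X ∩ F X)) := by
    unfold Pr
    rw [measureReal_biUnion_finset]
    · exact fun X hX Y hY hXY => hdisj X hX Y hY hXY
    · intro X _
      exact ((hWloc X).inter (hFloc X)).measurableSet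
  have hincl : (⋃ X ∈ Λ.powerset, (W X ∩ F X)) ⊆ Ev fun c => EU c w h := by
    intro c hc
    rw [Set.mem_iUnion₂] at hc
    obtain ⟨X, _, hc1, hc2⟩ := hc
    obtain ⟨hR, u, t, hu, ht, hut⟩ := hc1
    have hv : vcross (col c) true 0 w 0 h := by
      refine ⟨u, t, hu, ht, hut.mono ?_⟩
      rw [← hR]
      exact RR4_RV_subset _ _ _
    refine h2 (col c) w h hw hh hv (TR4_cl_FB hh ?_)
    rw [hR]
    exact hc2
  calc pv true 0 w 0 h / 2 = pv true 0 w 0 h * (1 / 2) := by ring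
    _ ≤ (∑ X ∈ Λ.powerset, Pr (W X)) * (1 / 2) := by
        exact mul_le_mul_of_nonneg_right hpv (by norm_num)
    _ = ∑ X ∈ Λ.powerset, Pr (W X) * (1 / 2) := by rw [Finset.sum_mul]
    _ ≤ ∑ X ∈ Λ.powerset, Pr (W X ∩ F X) := Finset.sum_le_sum fun X hX => hlow X hX
    _ = Pr (⋃ X ∈ Λ.powerset, (W X ∩ F X)) := hsum
    _ ≤ Pr (Ev fun c => EU c w h) := measureReal_mono hincl (measure_ne_top _ _)

end TP
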